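import Pool.Agent.R179.MobM

/-!
The dual cone of an edge-scribed 4-polytope: facets and faces of the family of facet normals.
-/

set_option linter.unusedSectionVars false

namespace Pool.Agent.K6.H37.C120

open Finset Module R179.Mob

section gen
variable {ι : Type*} [Fintype ι] [DecidableEq ι]
variable {L : Type*} [AddCommGroup L] [Module ℝ L]

/-- the nonnegative functionals form the convex cone generated by the facet functionals -/
lemma gen_induct {u : ι → L} (hsp : Submodule.span ℝ (Set.range u) = ⊤)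
    (C : Dual ℝ L → Prop) (h0 : C 0) (hadd : ∀ f g, C f → C g → C (f + g))
    (hsmul : ∀ (t : ℝ) f, 0 ≤ t → C f → C (t • f))
    (hfac : ∀ S, IsFacet (Fc u) S → ∃ φ, Supp u S φ ∧ C φ)
    {ψ : Dual ℝ L} (hψ : ∀ i, 0 ≤ ψ (u i)) : C ψ := by
  classical
  suffices H : ∀ n : ℕ, ∀ ψ : Dual ℝ L, (∀ i, 0 ≤ ψ (u i)) →
      (univ.filter (fun i => ψ (u i) ≠ 0)).card ≤ n → C ψ from H _ ψ hψ le_rfl
  intro n
  induction n with
  | zero =>
    intro ψ hψ hn
    have h1 : ψ = 0 := by
      apply ext_of_span hsp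
      intro i
      by_contra hi
      have : i ∈ univ.filter (fun i => ψ (u i) ≠ 0) := by simp [hi]
      rw [Finset.card_eq_zero.1 (Nat.le_zero.1 hn)] at this
      simp at this
    rw [h1]; exact h0
  | succ n ih =>
    intro ψ hψ hn
    set S := univ.filter (fun i => ψ (u i) = 0) with hS
    have hSu : Supp u S ψ := ⟨hψ, fun i => by simp [hS]⟩
    by_cases hSuniv : S = univ
    · have h1 : ψ = 0 := by
        apply ext_of_span hsp
        intro i
        exact (hSu.2 i).2 (by rw [hSuniv]; simp)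
      rw [h1]; exact h0
    by_cases hf : IsFacet (Fc u) S
    · obtain ⟨φ, hφ, hC⟩ := hfac S hf
      obtain ⟨c, hc⟩ := facet_unique hsp hf hφ (g := ψ) (fun i hi => (hSu.2 i).2 hi)
      have h1 := supp_pos hφ hSuniv
      have h2 := supp_pos hSu hSuniv
      have hc0 : 0 ≤ c := by
        rw [hc, LinearMap.smul_apply, smul_eq_mul] at h2
        exact (pos_of_mul_pos_left h2 h1.le).le
      rw [hc]
      exact hsmul c φ hc0 hC
    · have h1 : ∃ T, Fc u T ∧ S ⊆ T ∧ T ≠ S ∧ T ≠ univ := by
        by_contra hcon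
        apply hf
        refine ⟨⟨ψ, hSu⟩, hSuniv, fun T hT hST => ?_⟩
        by_contra hne
        push Not at hne
        exact hcon ⟨T, hT, hST, hne.1, hne.2⟩
      obtain ⟨T, ⟨χ, hχ⟩, hST, hTS, hTu⟩ := h1
      have hne : (univ.filter (fun i => i ∉ T)).Nonempty := by
        by_contra hcon
        rw [Finset.not_nonempty_iff_eq_empty] at hcon
        apply hTu
        rw [Finset.eq_univ_iff_forall]
        intro i
        by_contra hi
        have : i ∈ univ.filter (fun i => i ∉ T) := by simp [hi]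
        rw [hcon] at this
        simp at this
      obtain ⟨k, hkm, hmin⟩ := Finset.exists_min_image _ (fun i => ψ (u i) / χ (u i)) hne
      simp only [mem_filter, mem_univ, true_and] at hkm hmin
      have hχpos : ∀ i, i ∉ T → 0 < χ (u i) := fun i hi =>
        lt_of_le_of_ne (hχ.1 i) (fun h => hi ((hχ.2 i).1 h.symm))
      set t := ψ (u k) / χ (u k) with ht
      have ht0 : 0 ≤ t := div_nonneg (hψ k) (hχpos k hkm).le
      have hψ' : ∀ i, 0 ≤ (ψ - t • χ) (u i) := by
        intro i
        simp only [LinearMap.sub_apply, LinearMap.smul_apply, smul_eq_mul]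
        by_cases hi : i ∈ T
        · rw [(hχ.2 i).2 hi]; simpa using hψ i
        · have h2 := hmin i hi
          rw [le_div_iff₀ (hχpos i hi)] at h2
          linarith
      have hcard : ∀ (R : Finset ι), R ⊆ (univ.filter (fun i => ψ (u i) ≠ 0)) →
          (∃ x, x ∈ (univ.filter (fun i => ψ (u i) ≠ 0)) ∧ x ∉ R) → R.card ≤ n := by
        intro R hR ⟨x, hx, hxR⟩
        have : R.card < (univ.filter (fun i => ψ (u i) ≠ 0)).card :=
          Finset.card_lt_card ⟨hR, fun h => hxR (h hx)⟩
        omega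
      have hC1 : C χ := by
        apply ih χ hχ.1
        apply hcard
        · intro i hi
          simp only [mem_filter, mem_univ, true_and] at hi ⊢
          intro h
          apply hi
          rw [hχ.2 i]
          exact hST ((hSu.2 i).1 h)
        · obtain ⟨x, hxT, hxS⟩ : ∃ x ∈ T, x ∉ S := by
            by_contra hcon
            push Not at hcon
            exact hTS (Finset.Subset.antisymm hcon hST)
          refine ⟨x, ?_, ?_⟩
          · simp only [mem_filter, mem_univ, true_and]
            intro h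
            exact hxS ((hSu.2 x).1 h)
          · simp only [mem_filter, mem_univ, true_and, not_not]
            exact (hχ.2 x).2 hxT
      have hC2 : C (ψ - t • χ) := by
        apply ih _ hψ'
        apply hcard
        · intro i hi
          simp only [mem_filter, mem_univ, true_and, LinearMap.sub_apply, LinearMap.smul_apply,
            smul_eq_mul] at hi ⊢
          intro h
          apply hi
          have h2 : χ (u i) = 0 := (hχ.2 i).2 (hST ((hSu.2 i).1 h))
          rw [h, h2]; simp
        · refine ⟨k, ?_, ?_⟩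
          · simp only [mem_filter, mem_univ, true_and]
            intro h
            exact hkm (hST ((hSu.2 k).1 h))
          · simp only [mem_filter, mem_univ, true_and, not_not, LinearMap.sub_apply,
              LinearMap.smul_apply, smul_eq_mul, ht]
            have := (hχpos k hkm).ne'
            field_simp
            ring
      have h3 : ψ = t • χ + (ψ - t • χ) := by abel
      rw [h3]
      exact hadd _ _ (hsmul t χ ht0 hC1) hC2

/-- a strictly positive functional is an interior point -/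
lemma interior {u : ι → L} {ψ : Dual ℝ L} (h : ∀ i, 0 < ψ (u i)) (g : Dual ℝ L) :
    ∃ t : ℝ, 0 < t ∧ ∀ i, 0 ≤ (ψ + t • g) (u i) := by
  by_cases hg : ∃ k, g (u k) < 0
  · obtain ⟨t, ht, h1, -⟩ := tilt (S := ∅) (φ := ψ) (g := g)
      ⟨fun i => (h i).le, fun i => by simp [(h i).ne']⟩ (by simp) hg
    exact ⟨t, ht, fun i => by simpa using h1 i⟩
  · push Not at hg
    exact ⟨1, one_pos, fun i => by
      have := h i
      have := hg i
      simp only [LinearMap.add_apply, LinearMap.smul_apply, smul_eq_mul, one_mul]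
      linarith⟩

end gen

section dual
variable {ι : Type*} [Fintype ι] [DecidableEq ι]

/-- the facets -/
abbrev Fct (F : Finset ι → Prop) : Type _ := {S : Finset ι // IsFacet F S}

noncomputable instance (F : Finset ι → Prop) : Fintype (Fct F) := by
  classical exact Subtype.fintype _

/-- the facets through a vertex -/
noncomputable def St (F : Finset ι → Prop) (i : ι) : Finset (Fct F) := univ.filter (fun S => i ∈ S.1)

lemma mem_St {F : Finset ι → Prop} {i : ι} {S : Fct F} : S ∈ St F i ↔ i ∈ S.1 := by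
  simp [St]

/-- a family of vertex vectors and a family of facet normals -/
structure DSys (F : Finset ι → Prop) (u : ι → L5) (w : Fct F → L5) : Prop where
  sp : Submodule.span ℝ (Set.range u) = ⊤
  hF : Fc u = F
  pos : ∃ e : L5, ∀ i, 0 < B e (u i)
  vert : ∀ i, F {i}
  supp : ∀ S : Fct F, Supp u S.1 (B (w S))

variable {F : Finset ι → Prop} {u : ι → L5} {w : Fct F → L5}

lemma DSys.gen (h : DSys F u w) (C : Dual ℝ L5 → Prop) (h0 : C 0)
    (hadd : ∀ f g, C f → C g → C (f + g))
    (hsmul : ∀ (t : ℝ) f, 0 ≤ t → C f → C (t • f))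
    (hfac : ∀ S, C (B (w S))) {ψ : Dual ℝ L5} (hψ : ∀ i, 0 ≤ ψ (u i)) : C ψ :=
  gen_induct h.sp C h0 hadd hsmul (fun S hS => by
    rw [h.hF] at hS
    exact ⟨B (w ⟨S, hS⟩), h.supp ⟨S, hS⟩, hfac _⟩) hψ

lemma DSys.nonneg (h : DSys F u w) (S : Fct F) (i : ι) : 0 ≤ B (w S) (u i) := (h.supp S).1 i

lemma DSys.zero_iff (h : DSys F u w) (S : Fct F) (i : ι) : B (w S) (u i) = 0 ↔ i ∈ S.1 :=
  (h.supp S).2 i

lemma DSys.pos_of (h : DSys F u w) {S : Fct F} {i : ι} (hi : i ∉ S.1) : 0 < B (w S) (u i) :=
  lt_of_le_of_ne (h.nonneg S i) (fun e => hi ((h.zero_iff S i).1 e.symm))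

lemma DSys.u_ne (h : DSys F u w) (i : ι) : u i ≠ 0 := by
  intro h0
  obtain ⟨e, he⟩ := h.pos
  have := he i
  rw [h0] at this
  simp at this

/-- nonnegative on all normals and zero against a strictly positive functional -/
lemma DSys.key (h : DSys F u w) {y : L5} (hy : ∀ S, 0 ≤ B (w S) y) {W : L5}
    (hW : ∀ i, 0 < B W (u i)) (hWy : B W y = 0) : y = 0 := by
  have h1 : ∀ g : Dual ℝ L5, 0 ≤ g y := by
    intro g
    obtain ⟨t, ht, h1⟩ := interior hW g
    have h2 : 0 ≤ (B W + t • g) y := by
      apply h.gen (fun ψ => 0 ≤ ψ y) (by simp)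
        (fun f g hf hg => by simp only [LinearMap.add_apply]; exact add_nonneg hf hg)
        (fun t f ht hf => by
          simp only [LinearMap.smul_apply, smul_eq_mul]; exact mul_nonneg ht hf)
        hy h1
    simp only [LinearMap.add_apply, LinearMap.smul_apply, smul_eq_mul, hWy, zero_add] at h2
    exact nonneg_of_mul_nonneg_right h2 ht
  apply B_nondeg
  intro z
  have h2 := h1 (B z)
  have h3 := h1 (-(B z))
  rw [LinearMap.neg_apply] at h3
  rw [B_comm]
  linarith

lemma DSys.span_w (h : DSys F u w) : Submodule.span ℝ (Set.range w) = ⊤ := by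
  by_contra hcon
  obtain ⟨φ, hφ0, hφ⟩ := Submodule.exists_le_ker_of_lt_top _ (lt_top_iff_ne_top.2 hcon)
  obtain ⟨y, hy⟩ := exists_rep φ
  obtain ⟨e, he⟩ := h.pos
  have h1 : ∀ S, B (w S) y = 0 := by
    intro S
    rw [B_comm, ← hy]
    exact hφ (Submodule.subset_span ⟨S, rfl⟩)
  have h2 : B e y = 0 := by
    apply h.gen (fun ψ => ψ y = 0) (by simp)
        (fun f g hf hg => by simp [hf, hg])
        (fun t f ht hf => by simp [hf])
        h1 (fun i => (he i).le)
  have h3 := h.key (fun S => (h1 S).ge) he h2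
  apply hφ0
  ext x <;> simp [hy, h3]

lemma DSys.supp_St (h : DSys F u w) (i : ι) : Supp w (St F i) (B (u i)) := by
  refine ⟨fun S => ?_, fun S => ?_⟩
  · rw [B_comm]; exact h.nonneg S i
  · rw [B_comm, h.zero_iff, mem_St]

lemma DSys.St_ne (h : DSys F u w) (i : ι) : St F i ≠ univ := by
  intro hcon
  apply h.u_ne i
  apply B_nondeg
  have h1 : B (u i) = 0 := by
    apply ext_of_span h.span_w
    intro S
    exact ((h.supp_St i).2 S).2 (by rw [hcon]; simp)
  intro y
  rw [h1]; simp

lemma DSys.facet_sub (h : DSys F u w) {T : Finset (Fct F)} (hT : IsFacet (Fc w) T) :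
    ∃ i, T = St F i := by
  obtain ⟨φ, hφ⟩ := hT.1
  obtain ⟨y, hy⟩ := exists_rep φ
  have hy1 : ∀ S, 0 ≤ B (w S) y := fun S => by rw [B_comm, ← hy]; exact hφ.1 S
  have hy2 : ∀ S, B (w S) y = 0 ↔ S ∈ T := fun S => by rw [B_comm, ← hy]; exact hφ.2 S
  have hex : ∃ i, T ⊆ St F i := by
    by_contra hcon
    push Not at hcon
    have hW : ∀ i, 0 < B (∑ S ∈ T, w S) (u i) := by
      intro i
      obtain ⟨S, hST, hSi⟩ := Finset.not_subset.1 (hcon i)
      rw [mem_St] at hSi
      rw [map_sum, LinearMap.sum_apply]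
      exact Finset.sum_pos' (fun S _ => h.nonneg S i) ⟨S, hST, h.pos_of hSi⟩
    have hWy : B (∑ S ∈ T, w S) y = 0 := by
      rw [map_sum, LinearMap.sum_apply]
      exact Finset.sum_eq_zero (fun S hS => (hy2 S).2 hS)
    have h3 := h.key hy1 hW hWy
    apply hT.2.1
    rw [Finset.eq_univ_iff_forall]
    intro S
    rw [← hy2 S, h3]; simp
  obtain ⟨i, hi⟩ := hex
  refine ⟨i, ?_⟩
  rcases hT.2.2 _ ⟨_, h.supp_St i⟩ hi with h1 | h1
  · exact h1.symm
  · exact absurd h1 (h.St_ne i)

lemma DSys.St_inj' (h : DSys F u w) {i j : ι} (hij : St F i ⊆ St F j) : i = j := by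
  obtain ⟨ψ, hψ⟩ : Fc u {i} := by rw [h.hF]; exact h.vert i
  have h1 : ((∀ k, 0 ≤ ψ (u k)) ∧ (ψ (u i) = 0 → ψ (u j) = 0)) := by
    apply h.gen (fun ψ => (∀ k, 0 ≤ ψ (u k)) ∧ (ψ (u i) = 0 → ψ (u j) = 0))
    · simp
    · rintro f g ⟨hf1, hf2⟩ ⟨hg1, hg2⟩
      refine ⟨fun k => ?_, fun hk => ?_⟩
      · simp only [LinearMap.add_apply]; exact add_nonneg (hf1 k) (hg1 k)
      · simp only [LinearMap.add_apply] at hk ⊢
        have e1 := hf1 i
        have e2 := hg1 i
        rw [hf2 (by linarith), hg2 (by linarith)]; simp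
    · rintro t f ht ⟨hf1, hf2⟩
      refine ⟨fun k => ?_, fun hk => ?_⟩
      · simp only [LinearMap.smul_apply, smul_eq_mul]; exact mul_nonneg ht (hf1 k)
      · simp only [LinearMap.smul_apply, smul_eq_mul, mul_eq_zero] at hk ⊢
        rcases hk with hk | hk
        · exact Or.inl hk
        · exact Or.inr (hf2 hk)
    · intro S
      refine ⟨h.nonneg S, fun hk => ?_⟩
      rw [h.zero_iff] at hk ⊢
      exact mem_St.1 (hij (mem_St.2 hk))
    · exact hψ.1
  have h2 := h1.2 ((hψ.2 i).2 (mem_singleton_self i))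
  exact (mem_singleton.1 ((hψ.2 j).1 h2)).symm

lemma DSys.facet_St (h : DSys F u w) (i : ι) : IsFacet (Fc w) (St F i) := by
  refine ⟨⟨_, h.supp_St i⟩, h.St_ne i, fun R hR hsub => ?_⟩
  by_cases hRu : R = univ
  · exact Or.inr hRu
  left
  obtain ⟨T, hT, hRT⟩ := exists_facet (Fc w) hR hRu
  obtain ⟨j, rfl⟩ := h.facet_sub hT
  have := h.St_inj' (hsub.trans hRT)
  subst this
  exact Finset.Subset.antisymm hRT hsub

lemma DSys.facet_iff (h : DSys F u w) (T : Finset (Fct F)) :
    IsFacet (Fc w) T ↔ ∃ i, T = St F i := by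
  constructor
  · exact h.facet_sub
  · rintro ⟨i, rfl⟩; exact h.facet_St i

lemma DSys.St_inj (h : DSys F u w) {i j : ι} (hij : St F i = St F j) : i = j :=
  h.St_inj' hij.subset

end dual

end Pool.Agent.K6.H37.C120
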