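import Pool.Agent.R179.MobDefs

/-!
The combinatorial type `{5,3,3}` (the 120-cell).
-/

namespace Pool.Agent.K6.H37.C120

open Finset R179.Mob

variable {ι : Type*} [Fintype ι]

/-- `G` is (the vertex set of) a 2-face of the 4-polytope `conv {v i}`: a face which is properly
contained in some facet `S`, with no face strictly between `G` and `S`. -/
def IsTwoFace (v : ι → E4) (G : Finset ι) : Prop :=
  IsFace v G ∧ ∃ S, IsFacet (IsFace v) S ∧ G ⊂ S ∧ ∀ T, IsFace v T → G ⊆ T → T ⊆ S → T = G ∨ T = S

/-- combinatorial type `{5,3,3}`: every vertex lies in exactly four facets and every 2-face has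
exactly five vertices -/
def Is533 (v : ι → E4) : Prop :=
  (∀ i, {S : Finset ι | IsFacet (IsFace v) S ∧ i ∈ S}.ncard = 4) ∧
  ∀ G, IsTwoFace v G → G.card = 5

end Pool.Agent.K6.H37.C120
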