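import Pool.Agent.R179.MobD
import Pool.Agent.R179.MobA

/-!
Ideal pentagons: the relations between the lambda lengths, and the quadratic inequality.
-/

set_option linter.unusedSectionVars false

namespace Pool.Agent.K6.H37.C120

open Finset Module R179.Mob

lemma point_term {a b c τ : ℝ} (hτ0 : 0 < τ) (hτ1 : τ < 1) (hc : -τ < c) (hb' : b < 1 - τ) (hc' : c < 1 - τ)
    (hr : b + τ * (a + c) + a * c = 0) :
    -((1 - τ) / 2 * (a ^ 2 + b ^ 2 + c ^ 2)) ≤ a * b * c := by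
  have hσ : 0 < 1 - τ := by linarith
  -- bound for one negative and two nonnegative numbers
  have key : ∀ n p q : ℝ, n ≤ 0 → 0 ≤ p → 0 ≤ q → q ≤ 1 - τ →
      -((1 - τ) / 2 * (n ^ 2 + p ^ 2 + q ^ 2)) ≤ n * p * q := by
    intro n p q hn hp hq hq1
    have h1 : n * p * (1 - τ) ≤ n * p * q :=
      mul_le_mul_of_nonpos_left hq1 (mul_nonpos_of_nonpos_of_nonneg hn hp)
    have h2 : -((1 - τ) / 2 * (n ^ 2 + p ^ 2)) ≤ n * p * (1 - τ) := by
      nlinarith [mul_nonneg hσ.le (sq_nonneg (n + p))]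
    have h3 : 0 ≤ (1 - τ) / 2 * q ^ 2 := by positivity
    linarith
  have hnn : 0 ≤ (1 - τ) / 2 * (a ^ 2 + b ^ 2 + c ^ 2) := by positivity
  rcases le_total 0 a with h1 | h1 <;> rcases le_total 0 b with h2 | h2 <;>
    rcases le_total 0 c with h3 | h3
  · have : 0 ≤ a * b * c := by positivity
    linarith
  · have := key c a b h3 h1 h2 hb'.le
    nlinarith
  · have := key b a c h2 h1 h3 hc'.le
    nlinarith
  · have : 0 ≤ a * b * c := by
      have := mul_nonneg_of_nonpos_of_nonpos h2 h3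
      rw [mul_assoc]; exact mul_nonneg h1 this
    linarith
  · have := key a b c h1 h2 h3 hc'.le
    linarith
  · have : 0 ≤ a * b * c := by
      have := mul_nonneg_of_nonpos_of_nonpos h1 h3
      nlinarith
    linarith
  · have : 0 ≤ a * b * c := by
      have := mul_nonneg_of_nonpos_of_nonpos h1 h2
      exact mul_nonneg this h3
    linarith
  · -- all nonpositive: then b = 0 or contradiction
    have h4 : 0 ≤ b := by
      have e1 : (a + τ) * (c + τ) ≤ τ * τ :=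
        mul_le_mul (by linarith) (by linarith) (by linarith) hτ0.le
      nlinarith
    have h5 : b = 0 := le_antisymm h2 h4
    rw [h5]; simp
    positivity

/-- the quadratic inequality for the numbers of an ideal pentagon -/
lemma pent_ineq {z : Fin 5 → ℝ} (hz0 : ∀ m, 0 < z m) (hz1 : ∀ m, z m < 1)
    (hz : ∀ m, z m + z (m + 1) * z (m + 4) = 1) {τ : ℝ}
    (hτ1 : 618/1000 < τ) (hτ2 : τ < 6184/10000) (hτ : τ ^ 2 + τ = 1) :
    ∑ m, (z m - τ) * (z (m + 1) - τ) + 34/100 * ∑ m, (z m - τ) ^ 2 ≤ 0 := by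
  have hrel : ∀ m, (z m - τ) + τ * ((z (m + 4) - τ) + (z (m + 1) - τ))
      + (z (m + 4) - τ) * (z (m + 1) - τ) = 0 := by
    intro m
    have h1 := hz m
    linear_combination h1 - hτ
  have hpt : ∀ m, -((1 - τ) / 2 * ((z (m + 4) - τ) ^ 2 + (z m - τ) ^ 2 + (z (m + 1) - τ) ^ 2))
      ≤ (z (m + 4) - τ) * (z m - τ) * (z (m + 1) - τ) := fun m =>
    point_term (by linarith) (by linarith) (by linarith [hz0 (m + 1)]) (by linarith [hz1 m])
      (by linarith [hz1 (m + 1)]) (hrel m)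
  have hmul : ∀ m, (z m - τ) ^ 2 + τ * ((z (m + 4) - τ) * (z m - τ) + (z m - τ) * (z (m + 1) - τ))
      + (z (m + 4) - τ) * (z m - τ) * (z (m + 1) - τ) = 0 := by
    intro m
    linear_combination (z m - τ) * hrel m
  have a0 := hpt 0
  have a1 := hpt 1
  have a2 := hpt 2
  have a3 := hpt 3
  have a4 := hpt 4
  have b0 := hmul 0
  have b1 := hmul 1
  have b2 := hmul 2
  have b3 := hmul 3
  have b4 := hmul 4
  simp only [Fin.isValue, Fin.reduceAdd, zero_add] at a0 a1 a2 a3 a4 b0 b1 b2 b3 b4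
  rw [Fin.sum_univ_five, Fin.sum_univ_five]
  simp only [Fin.isValue, Fin.reduceAdd, zero_add]
  obtain ⟨S0, hS0⟩ : ∃ S0, S0 = (z 0 - τ) ^ 2 + (z 1 - τ) ^ 2 + (z 2 - τ) ^ 2 + (z 3 - τ) ^ 2
    + (z 4 - τ) ^ 2 := ⟨_, rfl⟩
  obtain ⟨S1, hS1⟩ : ∃ S1, S1 = (z 0 - τ) * (z 1 - τ) + (z 1 - τ) * (z 2 - τ)
    + (z 2 - τ) * (z 3 - τ) + (z 3 - τ) * (z 4 - τ) + (z 4 - τ) * (z 0 - τ) := ⟨_, rfl⟩
  have h0 : 0 ≤ S0 := by rw [hS0]; positivity
  have h1 : 2 * τ * S1 ≤ -(S0 - 3 * ((1 - τ) / 2) * S0) := by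
    rw [hS1, hS0]
    linarith
  rw [← hS0, ← hS1]
  have h2 : 2 * τ * (S1 + 34/100 * S0) ≤ 0 := by
    have : 0 ≤ (82/100 * τ - 1/2) * S0 := mul_nonneg (by linarith) h0
    nlinarith
  by_contra hcon
  push Not at hcon
  have : 0 < 2 * τ * (S1 + 34/100 * S0) := by positivity
  linarith

/-! ### Null vectors -/

lemma null_norm {x : L5} (hx : B x x = 0) : ‖x.1‖ = |x.2| := by
  rw [B_apply, real_inner_self_eq_norm_sq] at hx
  rw [← abs_norm, ← sq_eq_sq_iff_abs_eq_abs]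
  linarith

lemma null_time {x y : L5} (hx : B x x = 0) (hy : B y y = 0) (h : B x y < 0) :
    0 < x.2 * y.2 := by
  by_contra hcon
  push Not at hcon
  have h1 := neg_le_of_abs_le (abs_real_inner_le_norm x.1 y.1)
  rw [null_norm hx, null_norm hy, ← abs_mul, abs_of_nonpos hcon] at h1
  rw [B_apply] at h
  linarith

lemma null_neg {x y : L5} (hx : B x x = 0) (hy : B y y = 0) (h : 0 < x.2 * y.2)
    (hne : ∀ c : ℝ, y ≠ c • x) : B x y < 0 := by
  have hx2 : x.2 ≠ 0 := by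
    intro h0; rw [h0] at h; simp at h
  have hn := null_norm hx
  have hm := null_norm hy
  have h1 := le_of_abs_le (abs_real_inner_le_norm x.1 y.1)
  rw [hn, hm, ← abs_mul, abs_of_pos h] at h1
  rcases lt_or_eq_of_le h1 with h2 | h2
  · rw [B_apply]; linarith
  exfalso
  apply hne (y.2 / x.2)
  have h3 : ‖y.1 - (y.2 / x.2) • x.1‖ ^ 2 = 0 := by
    rw [norm_sub_sq_real, norm_smul, inner_smul_right, real_inner_comm, h2, mul_pow, hn, hm,
      Real.norm_eq_abs, sq_abs, sq_abs, sq_abs]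
    field_simp
    ring
  have h4 : y.1 = (y.2 / x.2) • x.1 := by
    rw [← sub_eq_zero, ← norm_eq_zero]
    exact pow_eq_zero_iff (two_ne_zero) |>.1 h3
  apply Prod.ext
  · exact h4
  · show y.2 = (y.2 / x.2) * x.2
    field_simp

/-- five vectors with this Gram matrix span the space -/
lemma ortho_zero {p q A0 A1 A2 X : L5} {s : ℝ} (hs : s ≠ 0)
    (hp : B p p = 1) (hq : B q q = 1) (hpq : B p q = -1/2)
    (hp0 : B p A0 = 0) (hp1 : B p A1 = 0) (hp2 : B p A2 = 0)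
    (hq0 : B q A0 = 0) (hq1 : B q A1 = 0) (hq2 : B q A2 = 0)
    (h00 : B A0 A0 = 0) (h11 : B A1 A1 = 0) (h22 : B A2 A2 = 0)
    (h01 : B A0 A1 = -3/2) (h12 : B A1 A2 = -3/2) (h02 : B A0 A2 = s)
    (hpX : B p X = 0) (hqX : B q X = 0) (h0X : B A0 X = 0) (h1X : B A1 X = 0)
    (h2X : B A2 X = 0) : X = 0 := by
  have hli : LinearIndependent ℝ ![p, q, A0, A1, A2] := by
    rw [Fintype.linearIndependent_iff]
    intro g hg
    rw [Fin.sum_univ_five] at hg
    simp only [Matrix.cons_val_zero, Matrix.cons_val_one, Matrix.cons_val] at hg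
    have e1 := congrArg (fun x => B p x) hg
    have e2 := congrArg (fun x => B q x) hg
    have e3 := congrArg (fun x => B A0 x) hg
    have e4 := congrArg (fun x => B A1 x) hg
    have e5 := congrArg (fun x => B A2 x) hg
    simp only [map_add, map_smul, smul_eq_mul, map_zero, hp, hq, hpq, hp0, hp1, hp2, hq0, hq1,
      hq2, h00, h11, h22, h01, h12, h02, B_comm q p, B_comm A0 p, B_comm A0 q, B_comm A1 p,
      B_comm A1 q, B_comm A2 p, B_comm A2 q, B_comm A1 A0, B_comm A2 A0, B_comm A2 A1] at e1 e2 e3 e4 e5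
    have g0 : g 0 = 0 := by linarith
    have g1 : g 1 = 0 := by linarith
    have g24 : g 2 = - g 4 := by linarith
    have g3 : g 3 = 2/3 * s * g 4 := by linarith
    have g4 : g 4 = 0 := by
      have : s * g 4 = 0 := by rw [g24, g3] at e5; linarith
      rcases mul_eq_zero.1 this with h | h
      · exact absurd h hs
      · exact h
    have g2 : g 2 = 0 := by rw [g24, g4]; simp
    have g3' : g 3 = 0 := by rw [g3, g4]; simp
    intro i
    fin_cases i <;> assumption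
  have hsp := hli.span_eq_top_of_card_eq_finrank (by rw [finrank_L5]; rfl)
  have h1 : B X = 0 := by
    apply ext_of_span hsp
    intro i
    rw [B_comm]
    fin_cases i <;> assumption
  apply B_nondeg
  intro y
  rw [h1]; simp

/-- the Ptolemy relation -/
lemma ptolemy {p q A0 A1 A2 A3 n n' : L5} {a b c : ℝ} (ha : 0 < a) (hb : 0 < b) (hc : 0 < c)
    (hp : B p p = 1) (hq : B q q = 1) (hpq : B p q = -1/2)
    (hp0 : B p A0 = 0) (hp1 : B p A1 = 0) (hp2 : B p A2 = 0) (hp3 : B p A3 = 0)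
    (hq0 : B q A0 = 0) (hq1 : B q A1 = 0) (hq2 : B q A2 = 0) (hq3 : B q A3 = 0)
    (h00 : B A0 A0 = 0) (h11 : B A1 A1 = 0) (h22 : B A2 A2 = 0) (h33 : B A3 A3 = 0)
    (h01 : B A0 A1 = -3/2) (h12 : B A1 A2 = -3/2) (h23 : B A2 A3 = -3/2)
    (h02 : B A0 A2 = -3/2 * a ^ 2) (h13 : B A1 A3 = -3/2 * b ^ 2) (h03 : B A0 A3 = -3/2 * c ^ 2)
    (hn0 : B n A0 = 0) (hn1 : B n A1 = 0) (hn2 : 0 < B n A2) (hn3 : 0 < B n A3)
    (hm1 : B n' A1 = 0) (hm2 : B n' A2 = 0) (hm3 : 0 < B n' A3) (hm0 : 0 < B n' A0) :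
    a * b = 1 + c := by
  obtain ⟨α, hα⟩ : ∃ α, α = (b ^ 2 - (c ^ 2 - 1) / a ^ 2) / 2 := ⟨_, rfl⟩
  obtain ⟨γ, hγ⟩ : ∃ γ, γ = (b ^ 2 + (c ^ 2 - 1) / a ^ 2) / 2 := ⟨_, rfl⟩
  obtain ⟨β, hβ⟩ : ∃ β, β = 1 - α * a ^ 2 := ⟨_, rfl⟩
  have ha2 : a ^ 2 ≠ 0 := by positivity
  have e1 : α + γ = b ^ 2 := by rw [hα, hγ]; ring
  have e2 : β + γ * a ^ 2 = c ^ 2 := by rw [hβ, hα, hγ]; field_simp; ring
  have e3 : α * a ^ 2 + β = 1 := by rw [hβ]; ring
  have hX : A3 - (α • A0 + β • A1 + γ • A2) = 0 := by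
    apply ortho_zero (s := -3/2 * a ^ 2) (by simp; positivity) hp hq hpq hp0 hp1 hp2 hq0 hq1 hq2
      h00 h11 h22 h01 h12 h02
    · simp only [map_sub, map_add, map_smul, hp0, hp1, hp2, hp3]; simp
    · simp only [map_sub, map_add, map_smul, hq0, hq1, hq2, hq3]; simp
    · simp only [map_sub, map_add, map_smul, h00, h01, h02, h03, smul_eq_mul]
      linear_combination 3/2 * e2
    · simp only [map_sub, map_add, map_smul, B_comm A1 A0, h01, h11, h12, h13, smul_eq_mul]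
      linear_combination 3/2 * e1
    · simp only [map_sub, map_add, map_smul, B_comm A2 A0, B_comm A2 A1, h02, h12, h22, h23,
        smul_eq_mul]
      linear_combination 3/2 * e3
  have hA3 : A3 = α • A0 + β • A1 + γ • A2 := sub_eq_zero.1 hX
  have hγ0 : 0 < γ := by
    have h := hn3
    rw [hA3] at h
    simp only [map_add, map_smul, hn0, hn1, smul_eq_mul, mul_zero, zero_add] at h
    exact pos_of_mul_pos_left h hn2.le
  have hα0 : 0 < α := by
    have h := hm3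
    rw [hA3] at h
    simp only [map_add, map_smul, hm1, hm2, smul_eq_mul, mul_zero, add_zero] at h
    exact pos_of_mul_pos_left h hm0.le
  have hnull : α * β + β * γ + α * γ * a ^ 2 = 0 := by
    have h := h33
    rw [hA3] at h
    simp only [map_add, map_smul, LinearMap.add_apply, LinearMap.smul_apply, h00, h11, h22, h01,
      h12, h02, B_comm A1 A0, B_comm A2 A0, B_comm A2 A1, smul_eq_mul] at h
    linarith
  have hβ0 : β < 0 := by
    by_contra hcon
    push Not at hcon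
    have e4 : 0 ≤ α * β := mul_nonneg hα0.le hcon
    have e5 : 0 ≤ β * γ := mul_nonneg hcon hγ0.le
    have e6 : 0 < α * γ * a ^ 2 := by positivity
    linarith
  -- β = (1 - a²b² + c²)/2
  have hβ' : 2 * β = 1 - a ^ 2 * b ^ 2 + c ^ 2 := by
    linear_combination e2 + e3 - a ^ 2 * e1
  have hfac : (a ^ 2 * b ^ 2 - (1 + c) ^ 2) * (a ^ 2 * b ^ 2 - (1 - c) ^ 2) = 0 := by
    have e4 : (a ^ 2 * b ^ 2 - (1 + c) ^ 2) * (a ^ 2 * b ^ 2 - (1 - c) ^ 2)
        = (a ^ 2 * b ^ 2) ^ 2 - 2 * (1 + c ^ 2) * (a ^ 2 * b ^ 2) + (c ^ 2 - 1) ^ 2 := by ring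
    have e5 := hnull
    rw [hβ] at e5
    rw [e4, ← e1, ← e2, hβ]
    linear_combination (-4 * a ^ 2) * e5
  rcases mul_eq_zero.1 hfac with h | h
  · have h1 : (a * b) ^ 2 = (1 + c) ^ 2 := by linarith
    exact (pow_left_inj₀ (by positivity) (by positivity) two_ne_zero).1 h1
  · exfalso
    nlinarith

end Pool.Agent.K6.H37.C120
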