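import Pool.Agent.K6.H37.C120.A
import Pool.Agent.K6.H37.C120.P

/-!
Edges of an edge-scribed simple polytope and the angles between the facet normals.
-/

set_option linter.unusedSectionVars false

namespace Pool.Agent.K6.H37.C120

open Finset Module R179.Mob

/-! ### Trigonometry -/

lemma arccos_sum {a b c x y z : ℝ} (ha : 0 < a) (hb : 0 < b) (hc : 0 < c)
    (hx : |x| ≤ 1) (hy : |y| ≤ 1) (hz : |z| ≤ 1)
    (e1 : a = b * x + c * y) (e2 : b = a * x + c * z) (e3 : c = a * y + b * z) :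
    Real.arccos x + Real.arccos y + Real.arccos z = Real.pi := by
  rw [abs_le] at hx hy hz
  have h1 : b * (1 - x ^ 2) = c * (z + x * y) := by linear_combination e2 + x * e1
  have h2 : c * (1 - y ^ 2) = b * (z + x * y) := by linear_combination e3 + y * e1
  have hx2 : 0 ≤ 1 - x ^ 2 := by nlinarith
  have hy2 : 0 ≤ 1 - y ^ 2 := by nlinarith
  have h3 : 0 ≤ z + x * y := by
    have : 0 ≤ c * (z + x * y) := by rw [← h1]; positivity
    exact nonneg_of_mul_nonneg_right this hc
  have h4 : (z + x * y) ^ 2 = (1 - x ^ 2) * (1 - y ^ 2) := by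
    have h5 : b * c * ((z + x * y) ^ 2 - (1 - x ^ 2) * (1 - y ^ 2)) = 0 := by
      linear_combination (-(c * (1 - y ^ 2))) * h1 - (c * (z + x * y)) * h2
    have h6 : b * c ≠ 0 := by positivity
    have := (mul_eq_zero.1 h5).resolve_left h6
    linarith
  have h5 : z + x * y = Real.sqrt (1 - x ^ 2) * Real.sqrt (1 - y ^ 2) := by
    rw [← Real.sqrt_mul hx2, ← h4, Real.sqrt_sq h3]
  have hcos : Real.cos (Real.arccos x + Real.arccos y) = -z := by
    rw [Real.cos_add, Real.cos_arccos hx.1 hx.2, Real.cos_arccos hy.1 hy.2, Real.sin_arccos,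
      Real.sin_arccos]
    linarith
  have h6 : 0 ≤ x + y := by
    have h7 : a * (x + y) = (b + c) * (1 - z) := by linear_combination -e2 - e3
    have h8 : 0 ≤ a * (x + y) := by
      rw [h7]; exact mul_nonneg (by positivity) (by linarith)
    exact nonneg_of_mul_nonneg_right h8 ha
  have h7 : Real.arccos x + Real.arccos y ≤ Real.pi := by
    have h8 := Real.arccos_le_arccos (show -y ≤ x by linarith)
    rw [Real.arccos_neg] at h8
    linarith
  have h8 : Real.arccos (-z) = Real.arccos x + Real.arccos y := by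
    rw [← hcos, Real.arccos_cos (add_nonneg (Real.arccos_nonneg _) (Real.arccos_nonneg _)) h7]
  rw [Real.arccos_neg] at h8
  linarith

/-- a null vector with positive time and its orthogonal space -/
lemma semidef {P x : L5} (hP : B P P = 0) (hP2 : 0 < P.2) (h : B P x = 0) : 0 ≤ B x x := by
  have h1 := null_norm hP
  rw [abs_of_pos hP2] at h1
  have h2 := abs_real_inner_le_norm P.1 x.1
  rw [B_apply] at h
  have h3 : inner ℝ P.1 x.1 = P.2 * x.2 := by linarith
  rw [h3, abs_mul, abs_of_pos hP2, h1] at h2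
  have h4 : |x.2| ≤ ‖x.1‖ := le_of_mul_le_mul_left h2 hP2
  rw [B_apply, real_inner_self_eq_norm_sq, ← sq, ← sq_abs x.2]
  have : |x.2| ^ 2 ≤ ‖x.1‖ ^ 2 := by gcongr
  linarith

/-- the orthogonal space of a timelike vector is positive definite -/
lemma spacelike {P x : L5} (hP : B P P < 0) (h : B P x = 0) (hx : x ≠ 0) : 0 < B x x := by
  rw [B_apply, real_inner_self_eq_norm_sq] at hP
  rw [B_apply] at h
  have h2 := abs_real_inner_le_norm P.1 x.1
  have h3 : inner ℝ P.1 x.1 = P.2 * x.2 := by linarith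
  rw [h3, abs_mul] at h2
  have hP' : ‖P.1‖ < |P.2| := by
    rw [← pow_lt_pow_iff_left₀ (norm_nonneg _) (abs_nonneg _) two_ne_zero, sq_abs]; linarith
  rw [B_apply, real_inner_self_eq_norm_sq]
  have hP2 : 0 < |P.2| := lt_of_le_of_lt (norm_nonneg _) hP'
  by_cases hx1 : x.1 = 0
  · rw [hx1, norm_zero, mul_zero] at h2
    have h4 : |x.2| ≤ 0 := by
      by_contra hcon
      push Not at hcon
      have := mul_pos hP2 hcon
      linarith
    exfalso
    apply hx
    apply Prod.ext
    · exact hx1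
    · exact abs_nonpos_iff.1 h4
  · have hx1' : 0 < ‖x.1‖ := norm_pos_iff.2 hx1
    have h4 : |x.2| < ‖x.1‖ := by
      have h5 : |P.2| * |x.2| < |P.2| * ‖x.1‖ :=
        lt_of_le_of_lt h2 (mul_lt_mul_of_pos_right hP' hx1')
      exact lt_of_mul_lt_mul_left h5 hP2.le
    have : |x.2| ^ 2 < ‖x.1‖ ^ 2 := by gcongr
    rw [sq_abs] at this
    linarith

/-- tangent point of the edge `{i, j}` -/
def EP {ι : Type*} (u : ι → L5) (i j : ι) (P : L5) : Prop :=
  (∃ s t : ℝ, 0 < s ∧ 0 < t ∧ P = s • u i + t • u j) ∧ B P P = 0 ∧ B P (u i) = 0 ∧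
    B P (u j) = 0 ∧ 0 < P.2

variable {ι : Type*} [Fintype ι] [DecidableEq ι]
variable {F : Finset ι → Prop} {u : ι → L5} {w : Fct F → L5}

/-- simple polytope with tangent edges -/
structure ESys (F : Finset ι → Prop) (u : ι → L5) (w : Fct F → L5) : Prop extends DSys F u w where
  h4 : ∀ T, IsFacet (Fc w) T → T.card = 4
  ed : ∀ i j, i ≠ j → F {i, j} → ∃ P, EP u i j P

/-- intersections of facets are faces -/
lemma DSys.face_inter (h : DSys F u w) (R : Finset (Fct F)) :
    ∃ ψ : Dual ℝ L5, (∀ z, 0 ≤ ψ (u z)) ∧ ∀ z, ψ (u z) = 0 ↔ R ⊆ St F z := by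
  refine ⟨B (∑ S ∈ R, w S), fun z => ?_, fun z => ?_⟩
  · rw [map_sum, LinearMap.sum_apply]
    exact Finset.sum_nonneg (fun S _ => h.nonneg S z)
  · rw [map_sum, LinearMap.sum_apply, Finset.sum_eq_zero_iff_of_nonneg (fun S _ => h.nonneg S z)]
    constructor
    · intro h1 S hS
      rw [mem_St, ← h.zero_iff]; exact h1 S hS
    · intro h1 S hS
      rw [h.zero_iff, ← mem_St]; exact h1 hS

/-- the neighbour of a vertex along the edge which leaves the facet `a` -/
lemma DSys.nb (h : DSys F u w) (h4 : ∀ T, IsFacet (Fc w) T → T.card = 4) {i : ι} {a : Fct F}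
    (ha : a ∈ St F i) : ∃ j, i ≠ j ∧ a ∉ St F j ∧ (St F i).erase a ⊆ St F j ∧ F {i, j} := by
  obtain ⟨g, t, k, -, -, -, hk, hfac, -, huniq⟩ :=
    neighbour h.span_w finrank_L5 h4 (h.facet_St i) (h.supp_St i) ha
  obtain ⟨j, hj⟩ := h.facet_sub hfac
  have haj : a ∉ St F j := by
    rw [← hj, mem_insert, not_or]
    exact ⟨fun e => hk (e ▸ ha), by simp⟩
  have hsub : (St F i).erase a ⊆ St F j := by rw [← hj]; exact subset_insert _ _
  refine ⟨j, fun e => haj (e ▸ ha), haj, hsub, ?_⟩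
  obtain ⟨ψ, hψ1, hψ2⟩ := h.face_inter ((St F i).erase a)
  rw [← h.hF]
  refine ⟨ψ, hψ1, fun z => ?_⟩
  rw [hψ2 z, mem_insert, mem_singleton]
  constructor
  · intro hz
    rcases huniq _ (h.facet_St z) hz with h1 | h1
    · exact Or.inl (h.St_inj h1)
    · rw [hj] at h1; exact Or.inr (h.St_inj h1)
  · rintro (rfl | rfl)
    · exact erase_subset _ _
    · exact hsub

lemma ESys.nbP (h : ESys F u w) {i : ι} {a : Fct F} (ha : a ∈ St F i) :
    ∃ j P, i ≠ j ∧ a ∉ St F j ∧ (St F i).erase a ⊆ St F j ∧ EP u i j P := by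
  obtain ⟨j, h1, h2, h3, h4'⟩ := h.toDSys.nb h.h4 ha
  obtain ⟨P, hP⟩ := h.ed i j h1 h4'
  exact ⟨j, P, h1, h2, h3, hP⟩

/-- two different tangent points at a vertex -/
lemma DSys.EP_neg (h : DSys F u w) {i j k : ι} {P Q : L5} (hP : EP u i j P) (hQ : EP u i k Q)
    {a : Fct F} (hai : a ∈ St F i) (haj : a ∉ St F j) (hak : a ∈ St F k) : B P Q < 0 := by
  obtain ⟨⟨s, t, hs, ht, hPe⟩, hP0, hPi, hPj, hPt⟩ := hP
  obtain ⟨⟨s', t', hs', ht', hQe⟩, hQ0, hQi, hQk, hQt⟩ := hQ
  have h1 : B (w a) Q = 0 := by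
    rw [hQe]
    simp [(h.zero_iff a i).2 (mem_St.1 hai), (h.zero_iff a k).2 (mem_St.1 hak)]
  have h2 : 0 < B (w a) P := by
    rw [hPe]
    simp only [map_add, map_smul, (h.zero_iff a i).2 (mem_St.1 hai), smul_eq_mul, mul_zero,
      zero_add]
    exact mul_pos ht (h.pos_of (fun e => haj (mem_St.2 e)))
  rw [B_comm]
  apply null_neg hQ0 hP0 (mul_pos hQt hPt)
  intro c hc
  rw [hc, map_smul, h1] at h2
  simp at h2

/-- facet normals are spacelike -/
lemma ESys.w_pos (h : ESys F u w) {i : ι} {a : Fct F} (ha : a ∈ St F i) :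
    0 < B (w a) (w a) := by
  have hcard := h.h4 _ (h.facet_St i)
  have h2 : 1 < ((St F i).erase a).card := by rw [card_erase_of_mem ha]; omega
  obtain ⟨b, hb, c, hc, hbc⟩ := Finset.one_lt_card.1 h2
  have hb' := mem_erase.1 hb
  have hc' := mem_erase.1 hc
  obtain ⟨j, P, hij, hbj, hsubj, hP⟩ := h.nbP hb'.2
  obtain ⟨k, Q, hik, hck, hsubk, hQ⟩ := h.nbP hc'.2
  have hneg : B P Q < 0 := h.toDSys.EP_neg hP hQ hb'.2 hbj (hsubk (mem_erase.2 ⟨hbc, hb'.2⟩))
  have haj : a ∈ St F j := hsubj (mem_erase.2 ⟨hb'.1.symm, ha⟩)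
  have hak : a ∈ St F k := hsubk (mem_erase.2 ⟨hc'.1.symm, ha⟩)
  have hPa : B P (w a) = 0 := by
    obtain ⟨⟨s, t, -, -, hPe⟩, -⟩ := hP
    rw [B_comm, hPe]
    simp [(h.zero_iff a i).2 (mem_St.1 ha), (h.zero_iff a j).2 (mem_St.1 haj)]
  have hQa : B Q (w a) = 0 := by
    obtain ⟨⟨s, t, -, -, hQe⟩, -⟩ := hQ
    rw [B_comm, hQe]
    simp [(h.zero_iff a i).2 (mem_St.1 ha), (h.zero_iff a k).2 (mem_St.1 hak)]
  apply spacelike (P := P + Q)
  · simp only [map_add, LinearMap.add_apply, hP.2.1, hQ.2.1, B_comm Q P]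
    linarith
  · simp [hPa, hQa]
  · intro h0
    apply a.2.2.1
    rw [Finset.eq_univ_iff_forall]
    intro z
    rw [← h.zero_iff, h0]; simp

/-- vectors orthogonal to a vertex are combinations of the normals at this vertex -/
lemma DSys.comb (h : DSys F u w) {i : ι} {y : L5} (hy : B (u i) y = 0) :
    ∃ l : Fct F → ℝ, y = ∑ x ∈ St F i, l x • w x := by
  have hmem : y ∈ Submodule.span ℝ (w '' (St F i : Set (Fct F))) := by
    by_contra hcon
    obtain ⟨f, hf, hfk⟩ := Submodule.exists_le_ker_of_notMem hcon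
    obtain ⟨c, hc⟩ := facet_unique h.span_w (h.facet_St i) (h.supp_St i) (g := f) (by
      intro x hx
      have : w x ∈ LinearMap.ker f := hfk (Submodule.subset_span ⟨x, hx, rfl⟩)
      exact this)
    apply hf
    rw [hc, LinearMap.smul_apply, hy]; simp
  rw [Submodule.mem_span_image_finset_iff_exists_fun] at hmem
  obtain ⟨l, hl⟩ := hmem
  refine ⟨fun x => if hx : x ∈ St F i then l ⟨x, hx⟩ else 0, ?_⟩
  rw [← hl, ← Finset.sum_coe_sort (St F i)]
  apply Finset.sum_congr rfl
  intro x _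
  simp [x.2]

/-- the angles of three facets around an edge add up to `π` -/
lemma ESys.tri (h : ESys F u w) (hun : ∀ S, B (w S) (w S) = 1) {i : ι} {a b c : Fct F}
    (ha : a ∈ St F i) (hb : b ∈ St F i) (hc : c ∈ St F i) (hab : a ≠ b) (hac : a ≠ c)
    (hbc : b ≠ c) :
    Real.arccos (-B (w a) (w b)) + Real.arccos (-B (w a) (w c)) + Real.arccos (-B (w b) (w c))
      = Real.pi := by
  have hcard := h.h4 _ (h.facet_St i)
  have h3 : (((St F i).erase a).erase b).erase c |>.Nonempty := by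
    rw [← card_pos, card_erase_of_mem, card_erase_of_mem, card_erase_of_mem ha]
    · omega
    · exact mem_erase.2 ⟨hab.symm, hb⟩
    · exact mem_erase.2 ⟨hbc.symm, mem_erase.2 ⟨hac.symm, hc⟩⟩
  obtain ⟨d, hd⟩ := h3
  simp only [mem_erase] at hd
  obtain ⟨hdc, hdb, hda, hd⟩ := hd
  have hSt : St F i = {a, b, c, d} := by
    symm
    apply Finset.eq_of_subset_of_card_le
    · intro x hx
      simp only [mem_insert, mem_singleton] at hx
      rcases hx with rfl | rfl | rfl | rfl <;> assumption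
    · rw [hcard, card_insert_of_notMem, card_insert_of_notMem, card_pair hdc.symm]
      · simp only [mem_insert, mem_singleton, not_or]; exact ⟨hbc, hdb.symm⟩
      · simp only [mem_insert, mem_singleton, not_or]; exact ⟨hab, hac, hda.symm⟩
  obtain ⟨j, P, hij, hdj, hsubj, hP⟩ := h.nbP hd
  have hPw : ∀ x ∈ St F i, x ≠ d → B (w x) P = 0 := by
    intro x hx hxd
    obtain ⟨⟨s, t, -, -, hPe⟩, -⟩ := hP
    have hxj : x ∈ St F j := hsubj (mem_erase.2 ⟨hxd, hx⟩)
    rw [hPe]
    simp [(h.zero_iff x i).2 (mem_St.1 hx), (h.zero_iff x j).2 (mem_St.1 hxj)]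
  obtain ⟨l, hl⟩ := h.toDSys.comb (i := i) (y := P) (by rw [B_comm]; exact hP.2.2.1)
  rw [hSt, sum_insert (by simp only [mem_insert, mem_singleton, not_or]; exact ⟨hab, hac, hda.symm⟩),
    sum_insert (by simp only [mem_insert, mem_singleton, not_or]; exact ⟨hbc, hdb.symm⟩),
    sum_insert (by simp only [mem_singleton]; exact hdc.symm), sum_singleton] at hl
  have hld : l d = 0 := by
    have h1 : B (u j) P = 0 := by rw [B_comm]; exact hP.2.2.2.1
    have hz : ∀ x ∈ St F i, x ≠ d → B (u j) (w x) = 0 := by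
      intro x hx hxd
      rw [B_comm]
      exact (h.zero_iff x j).2 (mem_St.1 (hsubj (mem_erase.2 ⟨hxd, hx⟩)))
    rw [hl] at h1
    simp only [map_add, map_smul, hz a ha hda.symm, hz b hb hdb.symm, hz c hc hdc.symm,
      smul_eq_mul, mul_zero, zero_add] at h1
    rcases mul_eq_zero.1 h1 with h2 | h2
    · exact h2
    · exfalso
      rw [B_comm, h.zero_iff, ← mem_St] at h2
      exact hdj h2
  rw [hld, zero_smul, add_zero] at hl
  -- signs
  have hneg : ∀ x ∈ St F i, x ≠ d → ∀ m : ℝ,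
      (∀ k, (St F i).erase x ⊆ St F k → B P (u k) = m * B (w x) (u k)) → m < 0 := by
    intro x hx hxd m hm
    obtain ⟨k, Q, hik, hxk, hsubk, hQ⟩ := h.nbP hx
    have h1 : B Q P < 0 := h.toDSys.EP_neg hQ hP hx hxk (hsubj (mem_erase.2 ⟨hxd, hx⟩))
    obtain ⟨⟨s, t, hs, ht, hQe⟩, -⟩ := hQ
    have h2 : B P Q = t * (m * B (w x) (u k)) := by
      rw [← hm k hsubk]
      conv_lhs => rw [hQe]
      rw [map_add, map_smul, map_smul, hP.2.2.1]
      simp
    rw [B_comm, h2] at h1
    have h3 : 0 < B (w x) (u k) := h.pos_of (fun e => hxk (mem_St.2 e))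
    by_contra hcon
    push Not at hcon
    have : 0 ≤ t * (m * B (w x) (u k)) := by positivity
    linarith
  have hz : ∀ (k : ι) (x y : Fct F), y ∈ St F i → y ≠ x → (St F i).erase x ⊆ St F k →
      B (w y) (u k) = 0 := by
    intro k x y hy hyx hsub
    exact (h.zero_iff y k).2 (mem_St.1 (hsub (mem_erase.2 ⟨hyx, hy⟩)))
  have hla : l a < 0 := by
    apply hneg a ha hda.symm
    intro k hk
    rw [hl]
    simp only [map_add, map_smul, LinearMap.add_apply, LinearMap.smul_apply, smul_eq_mul,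
      hz k a b hb hab.symm hk, hz k a c hc hac.symm hk, mul_zero, add_zero]
  have hlb : l b < 0 := by
    apply hneg b hb hdb.symm
    intro k hk
    rw [hl]
    simp only [map_add, map_smul, LinearMap.add_apply, LinearMap.smul_apply, smul_eq_mul,
      hz k b a ha hab hk, hz k b c hc hbc.symm hk, mul_zero, add_zero, zero_add]
  have hlc : l c < 0 := by
    apply hneg c hc hdc.symm
    intro k hk
    rw [hl]
    simp only [map_add, map_smul, LinearMap.add_apply, LinearMap.smul_apply, smul_eq_mul,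
      hz k c a ha hac hk, hz k c b hb hbc hk, mul_zero, zero_add]
  have habs : ∀ x y : Fct F, B P (w x) = 0 → B P (w y) = 0 → |-B (w x) (w y)| ≤ 1 := by
    intro x y hx hy
    have h1 := semidef hP.2.1 hP.2.2.2.2 (x := w x + w y) (by simp [hx, hy])
    have h2 := semidef hP.2.1 hP.2.2.2.2 (x := w x - w y) (by simp [hx, hy])
    simp only [map_add, map_sub, LinearMap.add_apply, LinearMap.sub_apply, hun,
      B_comm (w y) (w x)] at h1 h2
    rw [abs_le]
    constructor <;> linarith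
  have hPa : B P (w a) = 0 := by rw [B_comm]; exact hPw a ha hda.symm
  have hPb : B P (w b) = 0 := by rw [B_comm]; exact hPw b hb hdb.symm
  have hPc : B P (w c) = 0 := by rw [B_comm]; exact hPw c hc hdc.symm
  have e1 := hPw a ha hda.symm
  have e2 := hPw b hb hdb.symm
  have e3 := hPw c hc hdc.symm
  rw [hl] at e1 e2 e3
  simp only [map_add, map_smul, smul_eq_mul, hun, B_comm (w b) (w a), B_comm (w c) (w a),
    B_comm (w c) (w b)] at e1 e2 e3
  exact arccos_sum (a := -l a) (b := -l b) (c := -l c) (by linarith) (by linarith) (by linarith)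
    (habs a b hPa hPb) (habs a c hPa hPc) (habs b c hPb hPc)
    (by linarith) (by linarith) (by linarith)

end Pool.Agent.K6.H37.C120
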