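import Pool.Agent.K6.H37.C120.E

/-!
Rigidity of the Gram matrix of the facet normals.
-/

set_option linter.unusedSectionVars false

namespace Pool.Agent.K6.H37.C120

open Finset Module R179.Mob

lemma j222 : ∀ m : Fin 5, m + 2 + 2 + 2 = m + 1 := by decide
lemma j32 : ∀ m : Fin 5, m + 3 + 2 = m := by decide
lemma j14 : ∀ m : Fin 5, m + 1 + 4 = m := by decide
lemma j13 : ∀ m : Fin 5, m + 1 + 3 = m + 4 := by decide
lemma j23 : ∀ m : Fin 5, m + 2 + 3 = m := by decide
lemma j33 : ∀ m : Fin 5, m + 3 + 3 = m + 1 := by decide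
lemma j31 : ∀ m : Fin 5, m + 3 + 1 = m + 4 := by decide

/-! ### Generic facts about a family all of whose facets are tetrahedra -/

section generic
variable {κ : Type*} [Fintype κ] [DecidableEq κ]

lemma uniqT {w : κ → L5} (hsp : Submodule.span ℝ (Set.range w) = ⊤)
    (h4 : ∀ T, IsFacet (Fc w) T → T.card = 4) {S : Finset κ} (hS : IsFacet (Fc w) S) {j k : κ}
    (hj : j ∈ S) (hk : k ∉ S) (hk' : IsFacet (Fc w) (insert k (S.erase j))) {T : Finset κ}
    (hT : IsFacet (Fc w) T) (hsub : S.erase j ⊆ T) : T = S ∨ T = insert k (S.erase j) := by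
  obtain ⟨φ, hφ⟩ := hS.1
  obtain ⟨g, t, k0, -, -, -, hk0, -, -, huniq⟩ := neighbour hsp finrank_L5 h4 hS hφ hj
  have h1 : insert k (S.erase j) = insert k0 (S.erase j) := by
    rcases huniq _ hk' (subset_insert _ _) with h | h
    · exfalso; apply hk; rw [← h]; simp
    · exact h
  rw [h1]
  exact huniq T hT hsub

open Classical in
/-- the Gram entry of the two vertices opposite to a triangle -/
noncomputable def sB (w : κ → L5) (T : Finset κ) : ℝ :=
  (∑ x ∈ univ.filter (fun x => x ∉ T ∧ IsFacet (Fc w) (insert x T)),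
    ∑ y ∈ (univ.filter (fun x => x ∉ T ∧ IsFacet (Fc w) (insert x T))).erase x,
      B (w x) (w y)) / 2

lemma sB_eq {w : κ → L5} (hsp : Submodule.span ℝ (Set.range w) = ⊤)
    (h4 : ∀ T, IsFacet (Fc w) T → T.card = 4) {S : Finset κ} (hS : IsFacet (Fc w) S) {j k : κ}
    (hj : j ∈ S) (hk : k ∉ S) (hk' : IsFacet (Fc w) (insert k (S.erase j))) :
    sB w (S.erase j) = B (w j) (w k) := by
  classical
  have hjk : j ≠ k := fun h => hk (h ▸ hj)
  have hK : univ.filter (fun x => x ∉ S.erase j ∧ IsFacet (Fc w) (insert x (S.erase j)))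
      = {j, k} := by
    ext x
    simp only [mem_filter, mem_univ, true_and, mem_insert, mem_singleton]
    constructor
    · rintro ⟨hx, hxf⟩
      rcases uniqT hsp h4 hS hj hk hk' hxf (subset_insert _ _) with h | h
      · left
        have h1 : x ∈ S := by rw [← h]; simp
        by_contra hne
        exact hx (mem_erase.2 ⟨hne, h1⟩)
      · right
        have h1 : x ∈ insert k (S.erase j) := by rw [← h]; simp
        rcases mem_insert.1 h1 with h2 | h2
        · exact h2
        · exact absurd h2 hx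
    · rintro (rfl | rfl)
      · exact ⟨by simp, by rw [insert_erase hj]; exact hS⟩
      · exact ⟨fun h => hk (mem_erase.1 h).2, hk'⟩
  unfold sB
  rw [hK, Finset.sum_pair hjk]
  have e1 : ({j, k} : Finset κ).erase j = {k} := by
    ext x; simp only [mem_erase, mem_insert, mem_singleton]
    constructor
    · rintro ⟨h1, h2 | h2⟩
      · exact absurd h2 h1
      · exact h2
    · rintro rfl; exact ⟨hjk.symm, Or.inr rfl⟩
  have e2 : ({j, k} : Finset κ).erase k = {j} := by
    ext x; simp only [mem_erase, mem_insert, mem_singleton]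
    constructor
    · rintro ⟨h1, h2 | h2⟩
      · exact h2
      · exact absurd h2 h1
    · rintro rfl; exact ⟨hjk, Or.inl rfl⟩
  rw [e1, e2, Finset.sum_singleton, Finset.sum_singleton, B_comm (w k) (w j)]
  ring

lemma sB_link {w : κ → L5} (hsp : Submodule.span ℝ (Set.range w) = ⊤)
    (h4 : ∀ T, IsFacet (Fc w) T → T.card = 4) {a b : κ} {c : Fin 5 → κ}
    (hc : LinkC (Fc w) a b c) (m : Fin 5) :
    sB w {a, b, c (m+1)} = B (w (c m)) (w (c (m+2))) := by
  have hS := ((hc.fac {a, b, c m, c (m+1)}).2 ⟨m, rfl⟩).1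
  have hS' := ((hc.fac {a, b, c (m+1), c (m+1+1)}).2 ⟨m+1, rfl⟩).1
  rw [ix11] at hS'
  have h01 : c m ≠ c (m+1) := fun h => fin5_succ_ne m (hc.inj h).symm
  have h20 : c (m+2) ≠ c m := fun h => n20 m (hc.inj h)
  have h21 : c (m+2) ≠ c (m+1) := fun h => n21 m (hc.inj h)
  have he : ({a, b, c m, c (m+1)} : Finset κ).erase (c m) = {a, b, c (m+1)} :=
    set4_erase3 (hc.na m) (hc.nb m) h01
  rw [← he]
  apply sB_eq hsp h4 hS (by simp)
  · simp only [mem_insert, mem_singleton, not_or]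
    exact ⟨hc.na _, hc.nb _, h20, h21⟩
  · rw [he]
    have : insert (c (m+2)) ({a, b, c (m+1)} : Finset κ) = {a, b, c (m+1), c (m+2)} := by
      ext z; simp only [mem_insert, mem_singleton]; tauto
    rw [this]; exact hS'

end generic

variable {ι : Type*} [Fintype ι] [DecidableEq ι]
variable {F : Finset ι → Prop} {u : ι → L5} {w : Fct F → L5}

/-- normalised facet normals, pentagonal links -/
structure FSys (F : Finset ι → Prop) (u : ι → L5) (w : Fct F → L5) : Prop extends ESys F u w where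
  un : ∀ S, B (w S) (w S) = 1
  lk : ∀ T, IsFacet (Fc w) T → ∀ a ∈ T, ∀ b ∈ T, a ≠ b → ∃ c, LinkC (Fc w) a b c

/-- the dihedral angle -/
noncomputable def th (w : Fct F → L5) (a b : Fct F) : ℝ := Real.arccos (-B (w a) (w b))

lemma th_comm (a b : Fct F) : th w a b = th w b a := by
  unfold th; rw [B_comm]

lemma FSys.tri' (h : FSys F u w) {T : Finset (Fct F)} (hT : IsFacet (Fc w) T) {a b c : Fct F}
    (ha : a ∈ T) (hb : b ∈ T) (hc : c ∈ T) (hab : a ≠ b) (hac : a ≠ c) (hbc : b ≠ c) :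
    th w a b + th w a c + th w b c = Real.pi := by
  obtain ⟨i, rfl⟩ := h.facet_sub hT
  exact h.toESys.tri h.un ha hb hc hab hac hbc

lemma FSys.opp (h : FSys F u w) {T : Finset (Fct F)} (hT : IsFacet (Fc w) T) {a b x y : Fct F}
    (ha : a ∈ T) (hb : b ∈ T) (hx : x ∈ T) (hy : y ∈ T) (hab : a ≠ b) (hax : a ≠ x)
    (hay : a ≠ y) (hbx : b ≠ x) (hby : b ≠ y) (hxy : x ≠ y) : th w a b = th w x y := by
  have e1 := h.tri' hT ha hb hx hab hax hbx
  have e2 := h.tri' hT ha hb hy hab hay hby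
  have e3 := h.tri' hT ha hx hy hax hay hxy
  have e4 := h.tri' hT hb hx hy hbx hby hxy
  linarith

lemma FSys.link_const (h : FSys F u w) {a b : Fct F} (hab : a ≠ b) {c : Fin 5 → Fct F}
    (hc : LinkC (Fc w) a b c) (m : Fin 5) : th w a (c m) = th w a (c (m+1)) := by
  have step : ∀ m : Fin 5, th w a (c m) = th w b (c (m+1)) ∧ th w a (c (m+1)) = th w b (c m) := by
    intro m
    have hS := ((hc.fac {a, b, c m, c (m+1)}).2 ⟨m, rfl⟩).1
    have h01 : c m ≠ c (m+1) := fun h => fin5_succ_ne m (hc.inj h).symm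
    have hna := hc.na m
    have hna1 := hc.na (m+1)
    have hnb := hc.nb m
    have hnb1 := hc.nb (m+1)
    constructor
    · exact h.opp hS (by simp) (by simp) (by simp) (by simp) hna.symm hab hna1.symm hnb h01
        hnb1.symm
    · exact h.opp hS (by simp) (by simp) (by simp) (by simp) hna1.symm hab hna.symm hnb1 h01.symm
        hnb.symm
  have two : ∀ m : Fin 5, th w a (c m) = th w a (c (m+2)) := by
    intro m
    have e1 := (step m).1
    have e2 := (step (m+1)).2
    rw [ix11] at e2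
    rw [e1, e2]
  have e1 := two m
  have e2 := two (m+2)
  have e3 := two (m+2+2)
  have i1 := j222 m
  rw [i1] at e3
  rw [e1, e2, e3]

lemma FSys.all_eq (h : FSys F u w) {T : Finset (Fct F)} (hT : IsFacet (Fc w) T) {a b y : Fct F}
    (ha : a ∈ T) (hb : b ∈ T) (hy : y ∈ T) (hab : a ≠ b) (hay : a ≠ y) (hby : b ≠ y) :
    th w a b = th w a y := by
  have hcard := h.h4 T hT
  have h3 : (((T.erase a).erase b).erase y).Nonempty := by
    rw [← card_pos, card_erase_of_mem, card_erase_of_mem, card_erase_of_mem ha]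
    · omega
    · exact mem_erase.2 ⟨hab.symm, hb⟩
    · exact mem_erase.2 ⟨hby.symm, mem_erase.2 ⟨hay.symm, hy⟩⟩
  obtain ⟨x, hx⟩ := h3
  simp only [mem_erase] at hx
  obtain ⟨hxy, hxb, hxa, hx⟩ := hx
  have hTe : T = {a, x, b, y} := by
    symm
    apply Finset.eq_of_subset_of_card_le
    · intro z hz
      simp only [mem_insert, mem_singleton] at hz
      rcases hz with rfl | rfl | rfl | rfl <;> assumption
    · rw [hcard, card_insert_of_notMem, card_insert_of_notMem, card_pair hby]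
      · simp only [mem_insert, mem_singleton, not_or]; exact ⟨hxb, hxy⟩
      · simp only [mem_insert, mem_singleton, not_or]; exact ⟨hxa.symm, hab, hay⟩
  obtain ⟨c, hc⟩ := h.lk T hT a ha x hx hxa.symm
  obtain ⟨m, hm⟩ := (hc.fac T).1 ⟨hT, ha, hx⟩
  rw [hTe] at hm
  have hcst := h.link_const hxa.symm hc m
  rcases pair_eq4 hab.symm hxb.symm hay.symm hxy.symm hby hm with ⟨h1, h2⟩ | ⟨h1, h2⟩
  · rw [h1, h2]; exact hcst
  · rw [h1, h2]; exact hcst.symm

/-- all dihedral angles are `π/3` -/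
lemma FSys.gram (h : FSys F u w) {T : Finset (Fct F)} (hT : IsFacet (Fc w) T) {a b : Fct F}
    (ha : a ∈ T) (hb : b ∈ T) (hab : a ≠ b) : B (w a) (w b) = -1/2 := by
  have hcard := h.h4 T hT
  have h3 : ((T.erase a).erase b).Nonempty := by
    rw [← card_pos, card_erase_of_mem, card_erase_of_mem ha]
    · omega
    · exact mem_erase.2 ⟨hab.symm, hb⟩
  obtain ⟨y, hy⟩ := h3
  simp only [mem_erase] at hy
  obtain ⟨hyb, hya, hy⟩ := hy
  have e1 := h.all_eq hT ha hb hy hab hya.symm hyb.symm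
  have e2 := h.all_eq hT hb ha hy hab.symm hyb.symm hya.symm
  have e3 := h.tri' hT ha hb hy hab hya.symm hyb.symm
  rw [th_comm b a] at e2
  have e4 : th w a b = Real.pi / 3 := by linarith
  unfold th at e4
  have hpi := Real.pi_pos
  have h1 : -B (w a) (w b) ≤ 1 := by
    by_contra hcon
    push Not at hcon
    rw [Real.arccos_of_one_le hcon.le] at e4
    linarith
  have h2 : -1 ≤ -B (w a) (w b) := by
    by_contra hcon
    push Not at hcon
    rw [Real.arccos_of_le_neg_one hcon.le] at e4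
    linarith
  have h5 := Real.cos_arccos h2 h1
  rw [e4, Real.cos_pi_div_three] at h5
  linarith

/-- the quantity attached to a triangle, as a function of the Gram entry -/
noncomputable def gq (s : ℝ) : ℝ := Real.sqrt (2/3 * (1 - s))

noncomputable def gz (τ s : ℝ) : ℝ := gq s / (1 + gq s) - τ

lemma FSys.link_ineq (h : FSys F u w) {τ : ℝ} (hτ1 : 618/1000 < τ) (hτ2 : τ < 6184/10000)
    (hτ : τ ^ 2 + τ = 1) {a b : Fct F} (hab : a ≠ b) {c : Fin 5 → Fct F}
    (hc : LinkC (Fc w) a b c) :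
    ∑ m, gz τ (sB w {a, b, c (m+1)}) * gz τ (sB w {a, b, c (m+2)})
        + 34/100 * ∑ m, gz τ (sB w {a, b, c (m+1)}) ^ 2 ≤ 0 := by
  have hfac : ∀ m, IsFacet (Fc w) {a, b, c m, c (m+1)} :=
    fun m => ((hc.fac {a, b, c m, c (m+1)}).2 ⟨m, rfl⟩).1
  have hi : ∀ m, ∃ i, ({a, b, c m, c (m+1)} : Finset (Fct F)) = St F i :=
    fun m => h.facet_sub (hfac m)
  choose n hn using hi
  have hn0 : ∀ m x, x ∈ ({a, b, c m, c (m+1)} : Finset (Fct F)) → B (u (n m)) (w x) = 0 := by
    intro m x hx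
    rw [hn m] at hx
    rw [B_comm]
    exact (h.zero_iff x _).2 (mem_St.1 hx)
  have hnp : ∀ m x, x ∉ ({a, b, c m, c (m+1)} : Finset (Fct F)) → 0 < B (u (n m)) (w x) := by
    intro m x hx
    rw [hn m] at hx
    rw [B_comm]
    exact h.pos_of (fun e => hx (mem_St.2 e))
  have hne : ∀ m, c m ≠ c (m+1) := fun m e => fin5_succ_ne m (hc.inj e).symm
  have gab : B (w a) (w b) = -1/2 := h.gram (hfac 0) (by simp) (by simp) hab
  have gac : ∀ m, B (w a) (w (c m)) = -1/2 :=
    fun m => h.gram (hfac m) (by simp) (by simp) (hc.na m).symm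
  have gbc : ∀ m, B (w b) (w (c m)) = -1/2 :=
    fun m => h.gram (hfac m) (by simp) (by simp) (hc.nb m).symm
  have gcc : ∀ m, B (w (c m)) (w (c (m+1))) = -1/2 :=
    fun m => h.gram (hfac m) (by simp) (by simp) (hne m)
  obtain ⟨V, hV⟩ : ∃ V : Fin 5 → L5, V = fun m => w (c m) + w a + w b := ⟨_, rfl⟩
  have hVV : ∀ m k, B (V m) (V k) = B (w (c m)) (w (c k)) - 1 := by
    intro m k
    rw [hV]
    simp only [map_add, LinearMap.add_apply, h.un, gab, gac, gbc, B_comm (w b) (w a),
      B_comm (w (c _)) (w a), B_comm (w (c _)) (w b)]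
    ring
  have hpV : ∀ m, B (w a) (V m) = 0 := by
    intro m
    rw [hV]
    simp only [map_add, h.un, gab, gac]
    ring
  have hqV : ∀ m, B (w b) (V m) = 0 := by
    intro m
    rw [hV]
    simp only [map_add, h.un, gab, gbc, B_comm (w b) (w a)]
    ring
  have hnV : ∀ m k, B (u (n m)) (V k) = B (u (n m)) (w (c k)) := by
    intro m k
    rw [hV]
    simp only [map_add, hn0 m a (by simp), hn0 m b (by simp), add_zero]
  have hV0 : ∀ m, B (V m) (V m) = 0 := by
    intro m; rw [hVV, h.un]; ring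
  have hV1 : ∀ m, B (V m) (V (m+1)) = -3/2 := by
    intro m; rw [hVV, gcc]; ring
  have mem2 : ∀ m : Fin 5, c (m+2) ∉ ({a, b, c m, c (m+1)} : Finset (Fct F)) := by
    intro m
    simp only [mem_insert, mem_singleton, not_or]
    exact ⟨hc.na _, hc.nb _, fun e => n20 m (hc.inj e), fun e => n21 m (hc.inj e)⟩
  have mem3 : ∀ m : Fin 5, c (m+3) ∉ ({a, b, c m, c (m+1)} : Finset (Fct F)) := by
    intro m
    simp only [mem_insert, mem_singleton, not_or]
    exact ⟨hc.na _, hc.nb _, fun e => n30 m (hc.inj e), fun e => n31 m (hc.inj e)⟩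
  have mem4 : ∀ m : Fin 5, c (m+4) ∉ ({a, b, c m, c (m+1)} : Finset (Fct F)) := by
    intro m
    simp only [mem_insert, mem_singleton, not_or]
    exact ⟨hc.na _, hc.nb _, fun e => n40 m (hc.inj e), fun e => n41 m (hc.inj e)⟩
  have hV2 : ∀ m, B (V m) (V (m+2)) < 0 := by
    intro m
    have t1 := null_time (hV0 m) (hV0 (m+1)) (by rw [hV1]; norm_num)
    have t2 := null_time (hV0 (m+1)) (hV0 (m+1+1)) (by rw [hV1]; norm_num)
    rw [ix11] at t2
    apply null_neg (hV0 m) (hV0 (m+2))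
    · have h1 : 0 < (V m).2 * (V (m+2)).2 * (V (m+1)).2 ^ 2 := by
        have := mul_pos t1 t2
        nlinarith
      exact pos_of_mul_pos_left h1 (sq_nonneg _)
    · intro k hk
      have h1 := hnp m _ (mem2 m)
      rw [← hnV, hk, map_smul, hnV, hn0 m (c m) (by simp)] at h1
      simp at h1
  obtain ⟨q, hq⟩ : ∃ q : Fin 5 → ℝ, q = fun m => gq (B (w (c m)) (w (c (m+2)))) := ⟨_, rfl⟩
  have hqpos : ∀ m, 0 < q m := by
    intro m
    rw [hq]
    apply Real.sqrt_pos.2
    have := hV2 m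
    rw [hVV] at this
    linarith
  have hqB : ∀ m, B (V m) (V (m+2)) = -3/2 * q m ^ 2 := by
    intro m
    have h1 := hV2 m
    rw [hVV] at h1 ⊢
    rw [hq]
    show _ = -3/2 * (Real.sqrt (2/3 * (1 - B (w (c m)) (w (c (m+2)))))) ^ 2
    rw [Real.sq_sqrt (by linarith)]
    ring
  have hrel : ∀ m, q m * q (m+1) = 1 + q (m+3) := by
    intro m
    have e1 := hqB (m+1)
    rw [ix12] at e1
    have e3 := hqB (m+3)
    have i32 := j32 m
    rw [i32, B_comm] at e3
    have e12 := hV1 (m+1)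
    rw [ix11] at e12
    have e23 := hV1 (m+2)
    rw [ix21] at e23
    have i12 := j14 m
    exact ptolemy (hqpos m) (hqpos (m+1)) (hqpos (m+3)) (h.un a) (h.un b) gab
      (hpV m) (hpV (m+1)) (hpV (m+2)) (hpV (m+3)) (hqV m) (hqV (m+1)) (hqV (m+2)) (hqV (m+3))
      (hV0 m) (hV0 (m+1)) (hV0 (m+2)) (hV0 (m+3)) (hV1 m) e12 e23 (hqB m) e1 e3
      (n := u (n m)) (n' := u (n (m+1)))
      (by rw [hnV]; exact hn0 m _ (by simp)) (by rw [hnV]; exact hn0 m _ (by simp))
      (by rw [hnV]; exact hnp m _ (mem2 m)) (by rw [hnV]; exact hnp m _ (mem3 m))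
      (by rw [hnV]; exact hn0 (m+1) _ (by simp))
      (by rw [hnV]; apply hn0 (m+1); rw [ix11]; simp)
      (by rw [hnV]; have := hnp (m+1) _ (mem2 (m+1)); rw [ix12] at this; exact this)
      (by rw [hnV]; have := hnp (m+1) _ (mem4 (m+1)); rw [i12] at this; exact this)
  obtain ⟨z, hz⟩ : ∃ z : Fin 5 → ℝ, z = fun m => q m / (1 + q m) := ⟨_, rfl⟩
  have hz0 : ∀ m, 0 < z m := by
    intro m; rw [hz]; have := hqpos m; positivity
  have hz1 : ∀ m, z m < 1 := by
    intro m; rw [hz]; have := hqpos m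
    show q m / (1 + q m) < 1
    rw [div_lt_one (by positivity)]; linarith
  have hzr : ∀ m, z m + z (m+1) * z (m+4) = 1 := by
    intro m
    have r1 := hrel (m+1)
    have r2 := hrel (m+2)
    have r3 := hrel (m+3)
    have i12 := j13 m
    have i23 := j23 m
    have i33 := j33 m
    have i31 := j31 m
    rw [ix11, i12] at r1
    rw [ix21, i23] at r2
    rw [i31, i33] at r3
    have p0 := hqpos m
    have p1 := hqpos (m+1)
    have p2 := hqpos (m+2)
    have p3 := hqpos (m+3)
    have p4 := hqpos (m+4)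
    rw [hz]
    show q m / (1 + q m) + q (m+1) / (1 + q (m+1)) * (q (m+4) / (1 + q (m+4))) = 1
    rw [← r1, ← r3]
    have h5 : q (m+1) / (q (m+3) * q (m+4)) * (q (m+4) / (q (m+1) * q (m+2)))
        = 1 / (q (m+2) * q (m+3)) := by
      field_simp
    rw [h5, r2]
    field_simp
    ring
  have key := pent_ineq hz0 hz1 hzr hτ1 hτ2 hτ
  have e1 : ∀ m, gz τ (sB w {a, b, c (m+1)}) = z m - τ := by
    intro m
    rw [sB_link h.span_w h.h4 hc m, hz, hq]; rfl
  have e2 : ∀ m, gz τ (sB w {a, b, c (m+2)}) = z (m+1) - τ := by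
    intro m
    have := e1 (m+1)
    rw [ix11] at this
    exact this
  simp only [e1, e2]
  exact key

/-- the Gram entry across a ridge is determined -/
lemma FSys.ridge_value (h : FSys F u w) {τ : ℝ} (hτ1 : 618/1000 < τ) (hτ2 : τ < 6184/10000)
    (hτ : τ ^ 2 + τ = 1) {S : Finset (Fct F)} (hS : IsFacet (Fc w) S) {j k : Fct F}
    (hj : j ∈ S) (hk : k ∉ S) (hk' : IsFacet (Fc w) (insert k (S.erase j))) :
    B (w j) (w k) = 1 - 3/2 * (τ / (1 - τ)) ^ 2 := by
  have hz := all_zero (F := Fc w) (fun T => gz τ (sB w T)) (by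
    intro t ht
    rw [mem_flags] at ht
    obtain ⟨hinj, hfac⟩ := ht
    have h01 : t 0 ≠ t 1 := fun h => absurd (hinj h) (by decide)
    obtain ⟨c, hc⟩ := h.lk _ hfac (t 0) (by simp) (t 1) (by simp) h01
    exact ⟨c, hc, h.link_ineq hτ1 hτ2 hτ h01 hc⟩)
  have hcard := h.h4 S hS
  have hcard3 : (S.erase j).card = 3 := by rw [card_erase_of_mem hj]; omega
  obtain ⟨a, b, d, hab, had, hbd, hSe⟩ := Finset.card_eq_three.1 hcard3
  have ha : a ∈ S.erase j := by rw [hSe]; simp
  have hb : b ∈ S.erase j := by rw [hSe]; simp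
  have hd : d ∈ S.erase j := by rw [hSe]; simp
  have hS' : S = {a, b, d, j} := by
    rw [← insert_erase hj, hSe]
    ext z; simp only [mem_insert, mem_singleton]; tauto
  have ht : (![a, b, d, j] : Fin 4 → Fct F) ∈ flags (Fc w) := by
    rw [mem_flags]
    refine ⟨vec4_inj hab had.symm hbd.symm (mem_erase.1 ha).1.symm (mem_erase.1 hb).1.symm
      (mem_erase.1 hd).1, ?_⟩
    rw [image4, ← hS']; exact hS
  have h1 := hz _ ht
  rw [Xv3, ← hSe, sB_eq h.span_w h.h4 hS hj hk hk'] at h1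
  unfold gz gq at h1
  obtain ⟨X, hX⟩ : ∃ X, X = Real.sqrt (2/3 * (1 - B (w j) (w k))) := ⟨_, rfl⟩
  rw [← hX] at h1
  have hX0 : 0 ≤ X := by rw [hX]; exact Real.sqrt_nonneg _
  have h2 : X = τ / (1 - τ) := by
    have h3 : (1 + X) ≠ 0 := by positivity
    have h4 : (1 - τ) ≠ 0 := by linarith
    field_simp at h1 ⊢
    linarith
  have hpos : 0 < X := by
    rw [h2]; apply div_pos <;> linarith
  have h3 : X ^ 2 = 2/3 * (1 - B (w j) (w k)) := by
    rw [hX]
    apply Real.sq_sqrt
    by_contra hcon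
    push Not at hcon
    rw [hX, Real.sqrt_eq_zero_of_nonpos hcon.le] at hpos
    exact lt_irrefl _ hpos
  rw [← h2]
  linarith

end Pool.Agent.K6.H37.C120
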