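import Pool.Agent.K6.H37.C120.G
import Pool.Agent.K6.H37.C120.Defs

/-!
Propagation, and Möbius uniqueness for polytopes of type `{5,3,3}`.
-/

set_option linter.unusedSectionVars false

namespace Pool.Agent.K6.H37.C120

open Finset Module R179.Mob

section prop
variable {κ : Type*} [Fintype κ] [DecidableEq κ]

/-- equal Gram data on facets and across ridges gives a Lorentz isometry -/
lemma propagate' {u w : κ → L5} (hspu : Submodule.span ℝ (Set.range u) = ⊤)
    (hspw : Submodule.span ℝ (Set.range w) = ⊤)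
    (h4 : ∀ T, IsFacet (Fc u) T → T.card = 4)
    (hf : ∀ T, IsFacet (Fc u) T ↔ IsFacet (Fc w) T)
    (hin : ∀ S, IsFacet (Fc u) S → ∀ i ∈ S, ∀ j ∈ S, B (w i) (w j) = B (u i) (u j))
    (hac : ∀ S, IsFacet (Fc u) S → ∀ j ∈ S, ∀ k, k ∉ S →
      IsFacet (Fc u) (insert k (S.erase j)) → B (w j) (w k) = B (u j) (u k))
    {S0 : Finset κ} (hS0 : IsFacet (Fc u) S0) :
    ∃ A : L5 ≃ₗ[ℝ] L5, (∀ x y, B (A x) (A y) = B x y) ∧
      ∀ S, IsFacet (Fc u) S → ∀ i ∈ S, A (u i) = w i := by
  classical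
  have across : ∀ S, IsFacet (Fc u) S → ∀ j ∈ S, ∀ k, k ∉ S →
      IsFacet (Fc u) (insert k (S.erase j)) → ∀ i ∈ S, B (w k) (w i) = B (u k) (u i) := by
    intro S hS j hj k hk hk' i hi
    by_cases hij : i = j
    · subst hij
      rw [B_comm (w k), B_comm (u k)]
      exact hac S hS i hj k hk hk'
    · exact hin _ hk' _ (mem_insert_self _ _) _ (mem_insert_of_mem (mem_erase.2 ⟨hij, hi⟩))
  have hcard0 := h4 S0 hS0
  obtain ⟨j0, hj0⟩ : S0.Nonempty := by rw [← Finset.card_pos]; omega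
  obtain ⟨φ0, hφ0⟩ := hS0.1
  obtain ⟨-, -, k0, -, -, -, hk0, hfac0, -, -⟩ := neighbour hspu finrank_L5 h4 hS0 hφ0 hj0
  have hS0w : IsFacet (Fc w) S0 := (hf _).1 hS0
  have hcR : Fintype.card (insert k0 S0 : Finset κ) = finrank ℝ L5 := by
    rw [Fintype.card_coe, card_insert_of_notMem hk0, hcard0, finrank_L5]
  let bu := basisOfTopLeSpanOfCardEqFinrank (fun i : (insert k0 S0 : Finset κ) => u i)
    (span_five hspu hS0 hk0).ge hcR
  let bw := basisOfTopLeSpanOfCardEqFinrank (fun i : (insert k0 S0 : Finset κ) => w i)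
    (span_five hspw hS0w hk0).ge hcR
  have hbu : ∀ i, bu i = u i := fun i => by simp [bu]
  have hbw : ∀ i, bw i = w i := fun i => by simp [bw]
  let A : L5 ≃ₗ[ℝ] L5 := bu.equiv bw (Equiv.refl _)
  have hA0 : ∀ i ∈ insert k0 S0, A (u i) = w i := by
    intro i hi
    have := Basis.equiv_apply bu ⟨i, hi⟩ bw (Equiv.refl _)
    rw [hbu] at this
    rw [Equiv.refl_apply, hbw] at this
    exact this
  have hgram : ∀ i ∈ insert k0 S0, ∀ j ∈ insert k0 S0, B (w i) (w j) = B (u i) (u j) := by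
    intro i hi j hj
    rcases mem_insert.1 hi with hik | hi'
    · rcases mem_insert.1 hj with hjk | hj'
      · rw [hik, hjk]
        exact hin _ hfac0 _ (mem_insert_self _ _) _ (mem_insert_self _ _)
      · rw [hik]
        exact across S0 hS0 j0 hj0 k0 hk0 hfac0 _ hj'
    · rcases mem_insert.1 hj with hjk | hj'
      · rw [hjk, B_comm, B_comm (u i)]
        exact across S0 hS0 j0 hj0 k0 hk0 hfac0 _ hi'
      · exact hin _ hS0 _ hi' _ hj'
  have hAB : B.compl₁₂ (A : L5 →ₗ[ℝ] L5) (A : L5 →ₗ[ℝ] L5) = B := by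
    apply LinearMap.ext_basis bu bu
    intro i j
    rw [LinearMap.compl₁₂_apply, hbu, hbu]
    simp only [LinearEquiv.coe_coe]
    rw [hA0 _ i.2, hA0 _ j.2]
    exact hgram _ i.2 _ j.2
  have hiso : ∀ x y, B (A x) (A y) = B x y := by
    intro x y
    have := congrArg (fun f => f x y) hAB
    simpa using this
  refine ⟨A, hiso, ?_⟩
  suffices hmain : ∀ S, IsFacet (Fc u) S →
      ((∀ i ∈ S, A (u i) = w i) ∧ ∃ m, m ∉ S ∧ A (u m) = w m) from
    fun S hS => (hmain S hS).1
  intro S hS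
  refine facet_induction hspu finrank_L5 h4
    (P := fun S => (∀ i ∈ S, A (u i) = w i) ∧ ∃ m, m ∉ S ∧ A (u m) = w m) hS0
    ⟨fun i hi => hA0 i (mem_insert_of_mem hi), k0, hk0, hA0 k0 (mem_insert_self _ _)⟩ ?_ hS
  intro S j k hS ⟨hin', m, hmS, hm⟩ hj hk hk'
  obtain ⟨φ, hφ⟩ := hS.1
  have hSw : IsFacet (Fc w) S := (hf _).1 hS
  obtain ⟨φ', hφ'⟩ := hSw.1
  obtain ⟨c, hc⟩ := facet_unique hspu hS hφ (g := φ' ∘ₗ (A : L5 →ₗ[ℝ] L5)) (by
    intro i hi
    simp only [LinearMap.comp_apply, LinearEquiv.coe_coe]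
    rw [hin' i hi]
    exact (hφ'.2 i).2 hi)
  have hcv : ∀ x, φ' (A x) = c * φ x := by
    intro x
    have := congrArg (fun f => f x) hc
    simpa using this
  have hpos : ∀ {v : κ → L5} {ψ : Dual ℝ L5}, Supp v S ψ → ∀ i, i ∉ S → 0 < ψ (v i) :=
    fun hψ i hi => lt_of_le_of_ne (hψ.1 i) (fun h => hi ((hψ.2 i).1 h.symm))
  have hcpos : 0 < c := by
    have h1 := hcv (u m)
    rw [hm] at h1
    have h2 := hpos hφ' m hmS
    rw [h1] at h2
    exact pos_of_mul_pos_left h2 (hpos hφ m hmS).le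
  have hφk : 0 < φ' (A (u k)) := by
    rw [hcv]; exact mul_pos hcpos (hpos hφ k hk)
  have hφk' : 0 < φ' (w k) := hpos hφ' k hk
  have hkey : A (u k) = w k := by
    have h1 : ∀ i ∈ S, B (w k - A (u k)) (w i) = 0 := by
      intro i hi
      rw [map_sub, LinearMap.sub_apply, across S hS j hj k hk hk' i hi]
      conv_lhs => rw [← hin' i hi]
      rw [hiso]
      ring
    obtain ⟨c', hc'⟩ := facet_unique hspw hSw hφ' (g := B (w k - A (u k))) h1
    have h2 : B (w k - A (u k)) (w k + A (u k)) = 0 := by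
      have e1 : B (w k) (w k) = B (A (u k)) (A (u k)) := by
        rw [hiso]
        exact hin _ hk' _ (mem_insert_self _ _) _ (mem_insert_self _ _)
      simp only [map_sub, map_add, LinearMap.sub_apply]
      rw [e1, B_comm (w k) (A (u k))]
      ring
    have h3 : c' = 0 := by
      rw [hc', LinearMap.smul_apply, map_add, smul_eq_mul, mul_eq_zero] at h2
      rcases h2 with h | h
      · exact h
      · linarith
    have h4 : w k - A (u k) = 0 := by
      apply B_nondeg
      intro y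
      rw [hc', h3]; simp
    exact (sub_eq_zero.1 h4).symm
  refine ⟨fun i hi => ?_, j, ?_, hin' j hj⟩
  · rcases mem_insert.1 hi with rfl | hi
    · exact hkey
    · exact hin' i (mem_erase.1 hi).2
  · simp only [mem_insert, mem_erase, ne_eq, not_true_eq_false, false_and, or_false]
    exact fun h => hk (h ▸ hj)

end prop

variable {ι : Type*} [Fintype ι] [DecidableEq ι]
variable {F : Finset ι → Prop} {u u' : ι → L5} {w w' : Fct F → L5}

/-- two systems with the same combinatorics are Lorentz equivalent -/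
lemma FSys.equiv (h : FSys F u w) (h' : FSys F u' w') (i0 : ι) :
    ∃ A : L5 ≃ₗ[ℝ] L5, (∀ x y, B (A x) (A y) = B x y) ∧
      ∀ i, ∃ c : ℝ, 0 < c ∧ A (u i) = c • u' i := by
  have hf : ∀ T, IsFacet (Fc w) T ↔ IsFacet (Fc w') T := by
    intro T; rw [h.facet_iff, h'.facet_iff]
  obtain ⟨τ, h1, h2, h3⟩ := tau_exists
  obtain ⟨A, hA, hAw⟩ := propagate' h.span_w h'.span_w h.h4 hf
    (by
      intro S hS i hi j hj
      by_cases hij : i = j
      · subst hij; rw [h.un, h'.un]
      · rw [h.gram hS hi hj hij, h'.gram ((hf S).1 hS) hi hj hij])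
    (by
      intro S hS j hj k hk hk'
      rw [h.ridge_value h1 h2 h3 hS hj hk hk',
        h'.ridge_value h1 h2 h3 ((hf _).1 hS) hj hk ((hf _).1 hk')])
    (h.facet_St i0)
  refine ⟨A, hA, fun i => ?_⟩
  have hAi : ∀ S ∈ St F i, A (w S) = w' S := fun S hS => hAw _ (h.facet_St i) S hS
  obtain ⟨c, hc⟩ := facet_unique h'.span_w (h'.facet_St i) (h'.supp_St i) (g := B (A (u i)))
    (by
      intro S hS
      rw [← hAi S hS, hA, B_comm]
      exact (h.zero_iff S i).2 (mem_St.1 hS))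
  have hAc : A (u i) = c • u' i := by
    have h5 : A (u i) - c • u' i = 0 := by
      apply B_nondeg
      intro y
      rw [map_sub, map_smul, hc]; simp
    exact sub_eq_zero.1 h5
  refine ⟨c, ?_, hAc⟩
  -- choose a facet which does not contain `i` but a neighbour of `i`
  have hcard := h.h4 _ (h.facet_St i)
  obtain ⟨a, ha⟩ : (St F i).Nonempty := by rw [← card_pos]; omega
  obtain ⟨j, hij, haj, hsub, -⟩ := h.toDSys.nb h.h4 ha
  have hcard' := h.h4 _ (h.facet_St j)
  obtain ⟨b, hbj, hbi⟩ : ∃ b ∈ St F j, b ∉ St F i := by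
    by_contra hcon
    push Not at hcon
    exact hij (h.St_inj' hcon).symm
  have hAb : A (w b) = w' b := hAw _ (h.facet_St j) b hbj
  have e1 : 0 < B (w b) (u i) := h.pos_of (fun e => hbi (mem_St.2 e))
  have e2 : 0 < B (w' b) (u' i) := h'.pos_of (fun e => hbi (mem_St.2 e))
  rw [← hA, hAb, hAc, map_smul, smul_eq_mul] at e1
  exact pos_of_mul_pos_left e1 e2.le

/-! ### From polytopes to systems -/

/-- homogeneous coordinates -/
noncomputable def hat (v : ι → E4) (i : ι) : L5 := (v i, 1)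

lemma Fc_hat (v : ι → E4) : Fc (hat v) = IsFace v := by
  have h := Fc_eq (v := v) (r := fun _ => 1) (fun _ => one_pos)
  simp only [one_smul] at h
  exact h

lemma span_hat' {v : ι → E4} (hv : IsPolytope v) :
    Submodule.span ℝ (Set.range (hat v)) = ⊤ := by
  have h := span_hat hv.full (r := fun _ => 1) (fun _ => one_pos)
  simp only [one_smul] at h
  exact h

lemma dsys_of {v : ι → E4} (hv : IsPolytope v) {w : Fct (IsFace v) → L5}
    (hw : ∀ S : Fct (IsFace v), Supp (hat v) S.1 (B (w S))) : DSys (IsFace v) (hat v) w where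
  sp := span_hat' hv
  hF := Fc_hat v
  pos := ⟨(0, -1), fun i => by rw [B_apply]; simp [hat]⟩
  vert := hv.vertex
  supp := hw

lemma card_St {v : ι → E4} (ht : Is533 v) (i : ι) : (St (IsFace v) i).card = 4 := by
  classical
  rw [← ht.1 i, ← Finset.card_image_of_injective _ (Subtype.val_injective),
    ← Set.ncard_coe_finset]
  congr 1
  ext S
  simp [mem_St, and_comm]

lemma edge_EP {v : ι → E4} (hs : EdgeScribed v) {i j : ι} (hij : i ≠ j)
    (hf : IsFace v {i, j}) : ∃ P, EP (hat v) i j P := by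
  obtain ⟨x, ⟨s, t, hs', ht', hst, hx⟩, h1, h2⟩ := hs i j ⟨hij, hf⟩
  have h3 : inner ℝ x (v i) = inner ℝ x (v j) := by
    rw [inner_sub_right] at h2; linarith
  have h4 : inner ℝ x x = inner ℝ x (v i) := by
    have h6 : inner ℝ x x = inner ℝ x (s • v i + t • v j) := by rw [hx]
    rw [h6, inner_add_right, inner_smul_right, inner_smul_right, ← h3, ← add_mul, hst, one_mul]
  have h5 : inner ℝ x (v i) = 1 := by
    rw [← h4, real_inner_self_eq_norm_sq, h1]; norm_num
  refine ⟨(x, 1), ⟨s, t, hs', ht', ?_⟩, ?_, ?_, ?_, ?_⟩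
  · apply Prod.ext
    · simp [hat, hx]
    · simp [hat, hst]
  · rw [B_apply]; simp [h1]
  · rw [B_apply]; simp [hat, h5]
  · rw [B_apply]; simp [hat, ← h3, h5]
  · simp

lemma esys_of {v : ι → E4} (hv : IsPolytope v) (hs : EdgeScribed v) (ht : Is533 v)
    {w : Fct (IsFace v) → L5} (hw : ∀ S : Fct (IsFace v), Supp (hat v) S.1 (B (w S))) :
    ESys (IsFace v) (hat v) w where
  toDSys := dsys_of hv hw
  h4 := by
    intro T hT
    obtain ⟨i, rfl⟩ := (dsys_of hv hw).facet_sub hT
    exact card_St ht i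
  ed := fun i j hij hf => edge_EP hs hij hf

/-- in a simple polytope two facets with a common vertex meet in a 2-face -/
lemma two_face {v : ι → E4} {w : Fct (IsFace v) → L5} (h : ESys (IsFace v) (hat v) w)
    {i : ι} {a b : Fct (IsFace v)} (ha : a ∈ St (IsFace v) i) (hb : b ∈ St (IsFace v) i)
    (hab : a ≠ b) : IsTwoFace v (a.1 ∩ b.1) := by
  have hface : IsFace v (a.1 ∩ b.1) := by
    refine (congrFun h.hF (a.1 ∩ b.1)).mp ?_
    obtain ⟨ψ, h1, h2⟩ := h.toDSys.face_inter {a, b}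
    refine ⟨ψ, h1, fun z => ?_⟩
    rw [h2 z, mem_inter]
    constructor
    · intro hsub
      exact ⟨mem_St.1 (hsub (by simp)), mem_St.1 (hsub (by simp))⟩
    · rintro ⟨h3, h4⟩ S hS
      simp only [mem_insert, mem_singleton] at hS
      rcases hS with rfl | rfl
      · exact mem_St.2 h3
      · exact mem_St.2 h4
  refine ⟨hface, a.1, a.2, ⟨inter_subset_left, fun hsub => ?_⟩, ?_⟩
  · have h1 : a.1 ⊆ b.1 := fun x hx => (mem_inter.1 (hsub hx)).2
    rcases a.2.2.2 b.1 b.2.1 h1 with h2 | h2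
    · exact hab (Subtype.ext h2.symm)
    · exact b.2.2.1 h2
  · intro T hT hGT hTa
    by_cases hTb : T ⊆ b.1
    · left
      exact Finset.Subset.antisymm (fun x hx => mem_inter.2 ⟨hTa hx, hTb hx⟩) hGT
    right
    obtain ⟨t0, ht0, ht0b⟩ := Finset.not_subset.1 hTb
    obtain ⟨ψ, hψ⟩ : Fc (hat v) T := (congrFun h.hF T).mpr hT
    have key : (∀ k, 0 ≤ ψ (hat v k)) ∧ ((∀ k ∈ a.1 ∩ b.1, ψ (hat v k) = 0) →
        ψ (hat v t0) = 0 → ∀ k ∈ a.1, ψ (hat v k) = 0) := by
      apply h.toDSys.gen (fun ψ => (∀ k, 0 ≤ ψ (hat v k)) ∧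
        ((∀ k ∈ a.1 ∩ b.1, ψ (hat v k) = 0) → ψ (hat v t0) = 0 → ∀ k ∈ a.1, ψ (hat v k) = 0))
      · simp
      · rintro f g ⟨hf1, hf2⟩ ⟨hg1, hg2⟩
        refine ⟨fun k => by simp only [LinearMap.add_apply]; exact add_nonneg (hf1 k) (hg1 k),
          fun h1 h2 k hk => ?_⟩
        have split : ∀ z, (f + g) (hat v z) = 0 → f (hat v z) = 0 ∧ g (hat v z) = 0 := by
          intro z hz
          simp only [LinearMap.add_apply] at hz
          have e1 := hf1 z
          have e2 := hg1 z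
          constructor <;> linarith
        have e1 := hf2 (fun z hz => (split z (h1 z hz)).1) (split t0 h2).1 k hk
        have e2 := hg2 (fun z hz => (split z (h1 z hz)).2) (split t0 h2).2 k hk
        simp [e1, e2]
      · rintro t f ht ⟨hf1, hf2⟩
        refine ⟨fun k => by
          simp only [LinearMap.smul_apply, smul_eq_mul]; exact mul_nonneg ht (hf1 k), ?_⟩
        intro h1 h2 k hk
        by_cases ht0' : t = 0
        · simp [ht0']
        · have e : ∀ z, (t • f) (hat v z) = 0 → f (hat v z) = 0 := by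
            intro z hz
            simp only [LinearMap.smul_apply, smul_eq_mul, mul_eq_zero] at hz
            exact hz.resolve_left ht0'
          have := hf2 (fun z hz => e z (h1 z hz)) (e t0 h2) k hk
          simp [this]
      · intro S
        refine ⟨h.nonneg S, fun h1 h2 k hk => ?_⟩
        rw [h.zero_iff] at h2 ⊢
        have hi : i ∈ S.1 := by
          rw [← h.zero_iff S i]
          exact h1 i (mem_inter.2 ⟨mem_St.1 ha, mem_St.1 hb⟩)
        by_cases hSa : S = a
        · rw [hSa]; exact hk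
        exfalso
        have hSb : S ≠ b := fun e => ht0b (e ▸ h2)
        obtain ⟨j, -, hSj, hsub, -⟩ := h.toDSys.nb h.h4 (mem_St.2 hi)
        have haj := hsub (mem_erase.2 ⟨Ne.symm hSa, ha⟩)
        have hbj := hsub (mem_erase.2 ⟨Ne.symm hSb, hb⟩)
        apply hSj
        rw [mem_St, ← h.zero_iff S j]
        exact h1 j (mem_inter.2 ⟨mem_St.1 haj, mem_St.1 hbj⟩)
      · exact hψ.1
    have h3 := key.2 (fun k hk => (hψ.2 k).2 (hGT hk)) ((hψ.2 t0).2 ht0)
    exact Finset.Subset.antisymm hTa (fun k hk => (hψ.2 k).1 (h3 k hk))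

lemma fsys_of {v : ι → E4} (hv : IsPolytope v) (hs : EdgeScribed v) (ht : Is533 v) :
    ∃ w, FSys (IsFace v) (hat v) w := by
  classical
  have hex : ∀ S : Fct (IsFace v), ∃ n : L5, Supp (hat v) S.1 (B n) := by
    intro S
    have h1 : Fc (hat v) S.1 := by rw [Fc_hat]; exact S.2.1
    obtain ⟨φ, hφ⟩ := h1
    obtain ⟨n, hn⟩ := exists_rep φ
    have : φ = B n := LinearMap.ext hn
    exact ⟨n, this ▸ hφ⟩
  choose w0 hw0 using hex
  have h0 := esys_of hv hs ht hw0
  have hne : ∀ S : Fct (IsFace v), ∃ i, S ∈ St (IsFace v) i := by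
    intro S
    by_contra hcon
    push Not at hcon
    have hS : S.1 = ∅ := by
      rw [Finset.eq_empty_iff_forall_notMem]
      intro i hi
      exact hcon i (mem_St.2 hi)
    have hι : Nonempty ι := by
      by_contra h
      rw [not_nonempty_iff] at h
      apply S.2.2.1
      rw [hS]
      exact (Finset.univ_eq_empty).symm
    obtain ⟨i⟩ := hι
    have hcard := card_St ht i
    obtain ⟨R, hR⟩ : (St (IsFace v) i).Nonempty := by rw [← card_pos]; omega
    have hiR := mem_St.1 hR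
    rcases S.2.2.2 R.1 R.2.1 (by rw [hS]; exact empty_subset _) with h1 | h1
    · rw [h1, hS] at hiR
      simp at hiR
    · exact R.2.2.1 h1
  have hpos : ∀ S, 0 < B (w0 S) (w0 S) := by
    intro S
    obtain ⟨i, hi⟩ := hne S
    exact h0.w_pos hi
  obtain ⟨w, hwdef⟩ : ∃ w : Fct (IsFace v) → L5,
      w = fun S => (Real.sqrt (B (w0 S) (w0 S)))⁻¹ • w0 S := ⟨_, rfl⟩
  have hr : ∀ S, 0 < (Real.sqrt (B (w0 S) (w0 S)))⁻¹ := fun S =>
    inv_pos.2 (Real.sqrt_pos.2 (hpos S))
  have hw : ∀ S : Fct (IsFace v), Supp (hat v) S.1 (B (w S)) := by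
    intro S
    refine ⟨fun i => ?_, fun i => ?_⟩
    · rw [hwdef]
      simp only [map_smul, LinearMap.smul_apply, smul_eq_mul]
      exact mul_nonneg (hr S).le ((hw0 S).1 i)
    · rw [hwdef]
      simp only [map_smul, LinearMap.smul_apply, smul_eq_mul, mul_eq_zero, (hr S).ne', false_or]
      exact (hw0 S).2 i
  have h := esys_of hv hs ht hw
  refine ⟨w, ⟨h, ?_, ?_⟩⟩
  · intro S
    rw [hwdef]
    simp only [map_smul, LinearMap.smul_apply, smul_eq_mul]
    have h1 := Real.mul_self_sqrt (hpos S).le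
    have h2 : Real.sqrt (B (w0 S) (w0 S)) ≠ 0 := (Real.sqrt_pos.2 (hpos S)).ne'
    field_simp
    rw [sq]; exact h1.symm
  · intro T hT a ha b hb hab
    obtain ⟨i, rfl⟩ := h.facet_sub hT
    apply link_of_five h.span_w finrank_L5 h.h4 hab
    have hcard := ht.2 _ (two_face h ha hb hab)
    rw [← hcard]
    have himg : univ.filter (fun S : Finset (Fct (IsFace v)) => IsFacet (Fc w) S ∧ a ∈ S ∧ b ∈ S)
        = (a.1 ∩ b.1).image (St (IsFace v)) := by
      ext R
      simp only [mem_filter, mem_univ, true_and, mem_image, mem_inter]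
      constructor
      · rintro ⟨hR, haR, hbR⟩
        obtain ⟨z, rfl⟩ := h.facet_sub hR
        exact ⟨z, ⟨mem_St.1 haR, mem_St.1 hbR⟩, rfl⟩
      · rintro ⟨z, ⟨hz1, hz2⟩, rfl⟩
        exact ⟨h.facet_St z, mem_St.2 hz1, mem_St.2 hz2⟩
    rw [himg, Finset.card_image_of_injective _ (fun x y hxy => h.St_inj hxy)]

end Pool.Agent.K6.H37.C120
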