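import Pool.Agent.K6.H37.C120.H

/-!
Möbius uniqueness of the 120-cell.
-/

set_option linter.unusedSectionVars false

namespace Pool.Agent.K6.H37.C120

open Finset Module R179.Mob

variable {ι κ : Type*} [Fintype ι] [DecidableEq ι] [Fintype κ] [DecidableEq κ]

lemma is533_congr {v w : ι → E4} (h : IsFace v = IsFace w) (ht : Is533 v) : Is533 w := by
  unfold Is533 IsTwoFace at *
  rw [← h]; exact ht

/-- same index set -/
theorem moebius_unique533 {v w : ι → E4} (hv : IsPolytope v) (hw : IsPolytope w)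
    (hvs : EdgeScribed v) (hws : EdgeScribed w) (ht : Is533 v)
    (hF : ∀ F, IsFace v F ↔ IsFace w F) :
    ∃ μ, IsMoebius μ ∧ ∀ i, μ '' ball (v i) = ball (w i) := by
  have hFe : IsFace v = IsFace w := funext fun F => propext (hF F)
  have htw := is533_congr hFe ht
  obtain ⟨n, h⟩ := fsys_of hv hvs ht
  obtain ⟨n', h'⟩ : ∃ n' : Fct (IsFace v) → L5, FSys (IsFace v) (hat w) n' := by
    rw [hFe]
    exact fsys_of hw hws htw
  have hne : Nonempty ι := by
    by_contra h
    rw [not_nonempty_iff] at h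
    have h1 := hv.full
    rw [Set.range_eq_empty] at h1
    simp at h1
  obtain ⟨i0⟩ := hne
  obtain ⟨A, hA, hAi⟩ := h.equiv h' i0
  choose c hc hAc using hAi
  -- a tangent point, to fix the time direction
  have hcard := h.h4 _ (h.facet_St i0)
  obtain ⟨a, ha⟩ : (St (IsFace v) i0).Nonempty := by rw [← card_pos]; omega
  obtain ⟨j, P, -, -, -, hP⟩ := h.toESys.nbP ha
  obtain ⟨⟨s, t, hs, ht', hPe⟩, hP0, -, -, hPt⟩ := hP
  have he : 0 < (A (0, 1)).2 := by
    apply time_preserved hA hP0 hPt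
    rw [hPe, map_add, map_smul, map_smul, hAc, hAc]
    have := hc i0
    have := hc j
    simp only [hat, Prod.snd_add, Prod.smul_snd, smul_eq_mul, mul_one]
    positivity
  obtain ⟨μ, hμ, hact⟩ := gen_lorentz (A := (A : L5 →ₗ[ℝ] L5)) hA he
  refine ⟨μ, hμ, fun i => ball_image hA he hact one_pos (hc i) ?_⟩
  rw [one_smul]
  exact hAc i

/-- two polytopes with possibly different index sets -/
theorem moebius_unique533' {v : ι → E4} {w : κ → E4} (hv : IsPolytope v) (hw : IsPolytope w)
    (hvs : EdgeScribed v) (hws : EdgeScribed w) (ht : Is533 v) (e : ι ≃ κ)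
    (he : ∀ F : Finset ι, IsFace v F ↔ IsFace w (F.map e.toEmbedding)) :
    ∃ μ, IsMoebius μ ∧ (∀ i, μ '' ball (v i) = ball (w (e i))) ∧
      (fun b => μ '' b) '' Set.range (fun i => ball (v i)) = Set.range (fun k => ball (w k)) := by
  obtain ⟨μ, hμ, h⟩ := moebius_unique533 hv (isPolytope_comp hw e) hvs (edgeScribed_comp hws e) ht
    (fun F => by rw [he, isFace_comp])
  refine ⟨μ, hμ, h, ?_⟩
  ext b
  constructor
  · rintro ⟨_, ⟨i, rfl⟩, rfl⟩
    exact ⟨e i, (h i).symm⟩
  · rintro ⟨k, rfl⟩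
    refine ⟨_, ⟨e.symm k, rfl⟩, ?_⟩
    have := h (e.symm k)
    simp only [Equiv.apply_symm_apply] at this
    exact this

end Pool.Agent.K6.H37.C120
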